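import Mathlib

/-!
The Haar system in the in-order arrangement, on `2 ^ K` cells.
-/

set_option autoImplicit false

namespace Pool.Agent.H7R2

open Finset

/-- The number of functions. -/
def mm : ℕ → ℕ
  | 0 => 0
  | (K + 1) => mm K + 1 + mm K

lemma mm_succ (K : ℕ) : mm K + 1 = 2 ^ K := by
  induction K with
  | zero => rfl
  | succ K ih => rw [mm, pow_succ]; omega

/-- The functions. -/
noncomputable def hX : ℕ → ℕ → ℕ → ℝ
  | 0, _, _ => 0
  | (K + 1), n, c =>
    if c < 2 ^ K then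
      (if n < mm K then Real.sqrt 2 * hX K n c else if n = mm K then 1 else 0)
    else
      (if n < mm K then 0 else if n = mm K then -1
        else Real.sqrt 2 * hX K (n - (mm K + 1)) (c - 2 ^ K))

lemma hX_ll {K n c : ℕ} (hn : n < mm K) (hc : c < 2 ^ K) :
    hX (K + 1) n c = Real.sqrt 2 * hX K n c := by
  rw [hX, if_pos hc, if_pos hn]

lemma hX_ml {K c : ℕ} (hc : c < 2 ^ K) : hX (K + 1) (mm K) c = 1 := by
  rw [hX, if_pos hc, if_neg (lt_irrefl _), if_pos rfl]

lemma hX_rl {K n c : ℕ} (hc : c < 2 ^ K) : hX (K + 1) (mm K + 1 + n) c = 0 := by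
  rw [hX, if_pos hc, if_neg (by omega), if_neg (by omega)]

lemma hX_lr {K n c : ℕ} (hn : n < mm K) : hX (K + 1) n (2 ^ K + c) = 0 := by
  rw [hX, if_neg (by omega), if_pos hn]

lemma hX_mr {K c : ℕ} : hX (K + 1) (mm K) (2 ^ K + c) = -1 := by
  rw [hX, if_neg (by omega), if_neg (lt_irrefl _), if_pos rfl]

lemma hX_rr {K n c : ℕ} :
    hX (K + 1) (mm K + 1 + n) (2 ^ K + c) = Real.sqrt 2 * hX K n c := by
  rw [hX, if_neg (by omega), if_neg (by omega), if_neg (by omega)]
  congr 2 <;> omega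

/-- splitting a sum over the cells -/
lemma sum_cells (K : ℕ) (f : ℕ → ℝ) :
    ∑ c ∈ range (2 ^ (K + 1)), f c
      = ∑ c ∈ range (2 ^ K), f c + ∑ c ∈ range (2 ^ K), f (2 ^ K + c) := by
  rw [pow_succ, mul_two, sum_range_add]

/-- splitting a sum over the functions -/
lemma sum_fns (K : ℕ) (f : ℕ → ℝ) :
    ∑ n ∈ range (mm (K + 1)), f n
      = ∑ n ∈ range (mm K), f n + f (mm K) + ∑ n ∈ range (mm K), f (mm K + 1 + n) := by
  rw [mm, sum_range_add, sum_range_succ]

/-- cases for an index -/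
lemma fn_cases {K n : ℕ} (hn : n < mm (K + 1)) :
    n < mm K ∨ n = mm K ∨ ∃ n', n' < mm K ∧ n = mm K + 1 + n' := by
  rw [mm] at hn
  rcases lt_trichotomy n (mm K) with h | h | h
  · exact Or.inl h
  · exact Or.inr (Or.inl h)
  · exact Or.inr (Or.inr ⟨n - (mm K + 1), by omega, by omega⟩)

/-- the functions have mean zero -/
lemma hX_mean (K : ℕ) : ∀ n < mm K, ∑ c ∈ range (2 ^ K), hX K n c = 0 := by
  induction K with
  | zero => intro n hn; exact absurd hn (by simp [mm])
  | succ K ih =>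
    intro n hn
    rw [sum_cells]
    rcases fn_cases hn with h | h | ⟨n', h, h'⟩
    · rw [sum_congr rfl (fun c hc => hX_ll h (mem_range.mp hc)),
        sum_congr rfl (fun c _ => hX_lr (c := c) h), ← mul_sum, ih n h]
      simp
    · subst h
      rw [sum_congr rfl (fun c hc => hX_ml (mem_range.mp hc)),
        sum_congr rfl (fun c _ => hX_mr (K := K) (c := c))]
      simp
    · subst h'
      rw [sum_congr rfl (fun c hc => hX_rl (n := n') (mem_range.mp hc)),
        sum_congr rfl (fun c _ => hX_rr (K := K) (n := n') (c := c)), ← mul_sum, ih n' h]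
      simp

lemma sq2 : Real.sqrt 2 * Real.sqrt 2 = 2 := Real.mul_self_sqrt (by norm_num)

/-- orthogonality -/
lemma hX_orth (K : ℕ) : ∀ n < mm K, ∀ m < mm K,
    ∑ c ∈ range (2 ^ K), hX K n c * hX K m c = if n = m then (2 : ℝ) ^ K else 0 := by
  induction K with
  | zero => intro n hn; exact absurd hn (by simp [mm])
  | succ K ih =>
    intro n hn m hm
    rw [sum_cells]
    rcases fn_cases hn with h | h | ⟨n', h, h'⟩
    · have e1 : ∀ c ∈ range (2 ^ K), hX (K + 1) n (2 ^ K + c) * hX (K + 1) m (2 ^ K + c) = 0 := by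
        intro c _
        rw [hX_lr h, zero_mul]
      rw [sum_eq_zero e1, add_zero]
      rcases fn_cases hm with g | g | ⟨m', g, g'⟩
      · have e2 : ∀ c ∈ range (2 ^ K), hX (K + 1) n c * hX (K + 1) m c
            = 2 * (hX K n c * hX K m c) := by
          intro c hc
          rw [hX_ll h (mem_range.mp hc), hX_ll g (mem_range.mp hc)]
          linear_combination (hX K n c * hX K m c) * sq2
        rw [sum_congr rfl e2, ← mul_sum, ih n h m g]
        split_ifs
        · ring
        · ring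
      · subst g
        have e2 : ∀ c ∈ range (2 ^ K), hX (K + 1) n c * hX (K + 1) (mm K) c
            = Real.sqrt 2 * hX K n c := by
          intro c hc
          rw [hX_ll h (mem_range.mp hc), hX_ml (mem_range.mp hc), mul_one]
        rw [sum_congr rfl e2, ← mul_sum, hX_mean K n h, if_neg (by omega), mul_zero]
      · subst g'
        have e2 : ∀ c ∈ range (2 ^ K), hX (K + 1) n c * hX (K + 1) (mm K + 1 + m') c = 0 := by
          intro c hc
          rw [hX_rl (mem_range.mp hc), mul_zero]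
        rw [sum_eq_zero e2, if_neg (by omega)]
    · subst h
      rcases fn_cases hm with g | g | ⟨m', g, g'⟩
      · have e1 : ∀ c ∈ range (2 ^ K),
            hX (K + 1) (mm K) (2 ^ K + c) * hX (K + 1) m (2 ^ K + c) = 0 := by
          intro c _
          rw [hX_lr g, mul_zero]
        have e2 : ∀ c ∈ range (2 ^ K), hX (K + 1) (mm K) c * hX (K + 1) m c
            = Real.sqrt 2 * hX K m c := by
          intro c hc
          rw [hX_ll g (mem_range.mp hc), hX_ml (mem_range.mp hc), one_mul]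
        rw [sum_eq_zero e1, sum_congr rfl e2, ← mul_sum, hX_mean K m g, if_neg (by omega)]
        simp
      · subst g
        have e1 : ∀ c ∈ range (2 ^ K),
            hX (K + 1) (mm K) (2 ^ K + c) * hX (K + 1) (mm K) (2 ^ K + c) = 1 := by
          intro c _
          rw [hX_mr]; norm_num
        have e2 : ∀ c ∈ range (2 ^ K), hX (K + 1) (mm K) c * hX (K + 1) (mm K) c = 1 := by
          intro c hc
          rw [hX_ml (mem_range.mp hc)]; norm_num
        rw [sum_congr rfl e1, sum_congr rfl e2, if_pos rfl]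
        simp
        ring
      · subst g'
        have e1 : ∀ c ∈ range (2 ^ K),
            hX (K + 1) (mm K) (2 ^ K + c) * hX (K + 1) (mm K + 1 + m') (2 ^ K + c)
              = -(Real.sqrt 2 * hX K m' c) := by
          intro c _
          rw [hX_mr, hX_rr]; ring
        have e2 : ∀ c ∈ range (2 ^ K), hX (K + 1) (mm K) c * hX (K + 1) (mm K + 1 + m') c = 0 := by
          intro c hc
          rw [hX_rl (mem_range.mp hc), mul_zero]
        rw [sum_congr rfl e1, sum_eq_zero e2, sum_neg_distrib, ← mul_sum, hX_mean K m' g,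
          if_neg (by omega)]
        simp
    · subst h'
      have e1 : ∀ c ∈ range (2 ^ K), hX (K + 1) (mm K + 1 + n') c * hX (K + 1) m c = 0 := by
        intro c hc
        rw [hX_rl (mem_range.mp hc), zero_mul]
      rw [sum_eq_zero e1, zero_add]
      rcases fn_cases hm with g | g | ⟨m', g, g'⟩
      · have e2 : ∀ c ∈ range (2 ^ K),
            hX (K + 1) (mm K + 1 + n') (2 ^ K + c) * hX (K + 1) m (2 ^ K + c) = 0 := by
          intro c hc
          rw [hX_lr g, mul_zero]
        rw [sum_eq_zero e2, if_neg (by omega)]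
      · subst g
        have e2 : ∀ c ∈ range (2 ^ K),
            hX (K + 1) (mm K + 1 + n') (2 ^ K + c) * hX (K + 1) (mm K) (2 ^ K + c)
              = -(Real.sqrt 2 * hX K n' c) := by
          intro c hc
          rw [hX_rr, hX_mr]; ring
        rw [sum_congr rfl e2, sum_neg_distrib, ← mul_sum, hX_mean K n' h, if_neg (by omega)]
        simp
      · subst g'
        have e2 : ∀ c ∈ range (2 ^ K),
            hX (K + 1) (mm K + 1 + n') (2 ^ K + c) * hX (K + 1) (mm K + 1 + m') (2 ^ K + c)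
              = 2 * (hX K n' c * hX K m' c) := by
          intro c hc
          rw [hX_rr, hX_rr]
          linear_combination (hX K n' c * hX K m' c) * sq2
        rw [sum_congr rfl e2, ← mul_sum, ih n' h m' g]
        by_cases hh : n' = m'
        · rw [if_pos hh, if_pos (by omega)]; ring
        · rw [if_neg hh, if_neg (by omega)]; ring

/-- the sign pattern -/
lemma hX_sign (K : ℕ) : ∀ c < 2 ^ K, ∀ n < mm K,
    (n < c → hX K n c ≤ 0) ∧ (c ≤ n → 0 ≤ hX K n c) := by
  induction K with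
  | zero => intro c hc n hn; exact absurd hn (by simp [mm])
  | succ K ih =>
    intro c hc n hn
    have hmm := mm_succ K
    have h2 : 0 ≤ Real.sqrt 2 := Real.sqrt_nonneg 2
    by_cases hcK : c < 2 ^ K
    · rcases fn_cases hn with h | h | ⟨n', h, h'⟩
      · rw [hX_ll h hcK]
        obtain ⟨i1, i2⟩ := ih c hcK n h
        exact ⟨fun g => mul_nonpos_of_nonneg_of_nonpos h2 (i1 g), fun g => mul_nonneg h2 (i2 g)⟩
      · subst h
        rw [hX_ml hcK]
        exact ⟨fun g => by omega, fun _ => by norm_num⟩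
      · subst h'
        rw [hX_rl hcK]
        exact ⟨fun _ => le_refl _, fun _ => le_refl _⟩
    · obtain ⟨c', rfl⟩ : ∃ c', c = 2 ^ K + c' := ⟨c - 2 ^ K, by omega⟩
      rcases fn_cases hn with h | h | ⟨n', h, h'⟩
      · rw [hX_lr h]
        exact ⟨fun _ => le_refl _, fun _ => le_refl _⟩
      · subst h
        rw [hX_mr]
        exact ⟨fun _ => by norm_num, fun g => by omega⟩
      · subst h'
        rw [hX_rr]
        rw [pow_succ] at hc
        obtain ⟨i1, i2⟩ := ih c' (by omega) n' h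
        exact ⟨fun g => mul_nonpos_of_nonneg_of_nonpos h2 (i1 (by omega)),
          fun g => mul_nonneg h2 (i2 (by omega))⟩

/-- The mean of the absolute value. -/
noncomputable def hβ (K n : ℕ) : ℝ := (∑ c ∈ range (2 ^ K), |hX K n c|) / 2 ^ K

lemma hβ_l {K n : ℕ} (h : n < mm K) : hβ (K + 1) n = Real.sqrt 2 / 2 * hβ K n := by
  have e1 : ∀ c ∈ range (2 ^ K), |hX (K + 1) n c| = Real.sqrt 2 * |hX K n c| := by
    intro c hc
    rw [hX_ll h (mem_range.mp hc), abs_mul, abs_of_nonneg (Real.sqrt_nonneg 2)]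
  have e2 : ∀ c ∈ range (2 ^ K), |hX (K + 1) n (2 ^ K + c)| = 0 := by
    intro c hc
    rw [hX_lr h, abs_zero]
  rw [hβ, hβ, sum_cells, sum_congr rfl e1, sum_eq_zero e2, ← mul_sum, add_zero, pow_succ]
  field_simp

lemma hβ_r {K n : ℕ} : hβ (K + 1) (mm K + 1 + n) = Real.sqrt 2 / 2 * hβ K n := by
  have e1 : ∀ c ∈ range (2 ^ K), |hX (K + 1) (mm K + 1 + n) (2 ^ K + c)|
      = Real.sqrt 2 * |hX K n c| := by
    intro c hc
    rw [hX_rr, abs_mul, abs_of_nonneg (Real.sqrt_nonneg 2)]
  have e2 : ∀ c ∈ range (2 ^ K), |hX (K + 1) (mm K + 1 + n) c| = 0 := by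
    intro c hc
    rw [hX_rl (mem_range.mp hc), abs_zero]
  rw [hβ, hβ, sum_cells, sum_congr rfl e1, sum_eq_zero e2, ← mul_sum, zero_add, pow_succ]
  field_simp

lemma hβ_m {K : ℕ} : hβ (K + 1) (mm K) = 1 := by
  have e1 : ∀ c ∈ range (2 ^ K), |hX (K + 1) (mm K) (2 ^ K + c)| = 1 := by
    intro c hc
    rw [hX_mr]; norm_num
  have e2 : ∀ c ∈ range (2 ^ K), |hX (K + 1) (mm K) c| = 1 := by
    intro c hc
    rw [hX_ml (mem_range.mp hc)]; norm_num
  rw [hβ, sum_cells, sum_congr rfl e1, sum_congr rfl e2, pow_succ]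
  simp
  field_simp
  norm_num

lemma hβ_sq (K : ℕ) : ∑ n ∈ range (mm K), hβ K n ^ 2 = K := by
  induction K with
  | zero => simp [mm]
  | succ K ih =>
    rw [sum_fns]
    have e1 : ∀ n ∈ range (mm K), hβ (K + 1) n ^ 2 = 1 / 2 * hβ K n ^ 2 := by
      intro n hn
      rw [hβ_l (mem_range.mp hn)]
      linear_combination (hβ K n ^ 2 / 4) * sq2
    have e2 : ∀ n ∈ range (mm K), hβ (K + 1) (mm K + 1 + n) ^ 2 = 1 / 2 * hβ K n ^ 2 := by
      intro n hn
      rw [hβ_r]
      linear_combination (hβ K n ^ 2 / 4) * sq2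
    rw [sum_congr rfl e1, sum_congr rfl e2, hβ_m, ← mul_sum, ih]
    push_cast
    ring

/-- The sum with absolute values. -/
noncomputable def hQ (K : ℕ) (a : ℕ → ℝ) (c : ℕ) : ℝ := ∑ n ∈ range (mm K), a n * |hX K n c|

/-- pointwise Cauchy-Schwarz along the branch -/
lemma hQ_sq (K : ℕ) : ∀ (a : ℕ → ℝ) (c : ℕ), c < 2 ^ K →
    hQ K a c ^ 2 ≤ K * ∑ n ∈ range (mm K), a n ^ 2 * hX K n c ^ 2 := by
  induction K with
  | zero => intro a c _; simp [hQ, mm]
  | succ K ih =>
    intro a c hc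
    have key : ∀ (y z Y : ℝ), 0 ≤ Y → y ^ 2 ≤ K * Y →
        (Real.sqrt 2 * y + z) ^ 2 ≤ (K + 1) * (2 * Y + z ^ 2) := by
      intro y z Y hY hy
      have hs := sq2
      rcases Nat.eq_zero_or_pos K with h0 | h0
      · subst h0
        have hy0 : y = 0 := by
          have : y ^ 2 ≤ 0 := by simpa using hy
          nlinarith
        subst hy0
        simp
        linarith
      · have hK : (0 : ℝ) < K := by exact_mod_cast h0
        have h1 : (Real.sqrt 2 * y - K * z) ^ 2 ≥ 0 := sq_nonneg _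
        have h2 : Real.sqrt 2 * y * z * (2 * K) ≤ 2 * y ^ 2 + K ^ 2 * z ^ 2 := by
          nlinarith
        have h4 : (K : ℝ) * ((Real.sqrt 2 * y + z) ^ 2)
            = 2 * K * y ^ 2 + Real.sqrt 2 * y * z * (2 * K) + K * z ^ 2 := by
          linear_combination (K * y ^ 2 : ℝ) * hs
        have h5 : 2 * ((K : ℝ) + 1) * y ^ 2 ≤ 2 * ((K : ℝ) + 1) * (K * Y) :=
          mul_le_mul_of_nonneg_left hy (by positivity)
        have h3 : K * ((Real.sqrt 2 * y + z) ^ 2) ≤ K * ((K + 1) * (2 * Y + z ^ 2)) := by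
          rw [h4]
          linarith
        exact le_of_mul_le_mul_left h3 hK
    have hmm := mm_succ K
    by_cases hcK : c < 2 ^ K
    · have e1 : hQ (K + 1) a c = Real.sqrt 2 * hQ K a c + a (mm K) := by
        rw [hQ, sum_fns, hQ, mul_sum]
        have e1 : ∀ n ∈ range (mm K), a n * |hX (K + 1) n c|
            = Real.sqrt 2 * (a n * |hX K n c|) := by
          intro n hn
          rw [hX_ll (mem_range.mp hn) hcK, abs_mul, abs_of_nonneg (Real.sqrt_nonneg 2)]
          ring
        have e2 : ∀ n ∈ range (mm K), a (mm K + 1 + n) * |hX (K + 1) (mm K + 1 + n) c| = 0 := by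
          intro n hn
          rw [hX_rl hcK, abs_zero, mul_zero]
        rw [sum_congr rfl e1, sum_eq_zero e2, hX_ml hcK, abs_one]
        ring
      have e2 : ∑ n ∈ range (mm (K + 1)), a n ^ 2 * hX (K + 1) n c ^ 2
          = 2 * (∑ n ∈ range (mm K), a n ^ 2 * hX K n c ^ 2) + a (mm K) ^ 2 := by
        rw [sum_fns, mul_sum]
        have e1 : ∀ n ∈ range (mm K), a n ^ 2 * hX (K + 1) n c ^ 2
            = 2 * (a n ^ 2 * hX K n c ^ 2) := by
          intro n hn
          rw [hX_ll (mem_range.mp hn) hcK]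
          linear_combination (a n ^ 2 * hX K n c ^ 2) * sq2
        have e2 : ∀ n ∈ range (mm K),
            a (mm K + 1 + n) ^ 2 * hX (K + 1) (mm K + 1 + n) c ^ 2 = 0 := by
          intro n hn
          rw [hX_rl hcK]
          ring
        rw [sum_congr rfl e1, sum_eq_zero e2, hX_ml hcK]
        ring
      rw [e1, e2]
      push_cast
      exact key _ _ _ (sum_nonneg (fun n _ => by positivity)) (ih a c hcK)
    · obtain ⟨c', rfl⟩ : ∃ c', c = 2 ^ K + c' := ⟨c - 2 ^ K, by omega⟩
      rw [pow_succ] at hc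
      have hc' : c' < 2 ^ K := by omega
      have e1 : hQ (K + 1) a (2 ^ K + c')
          = Real.sqrt 2 * hQ K (fun n => a (mm K + 1 + n)) c' + a (mm K) := by
        rw [hQ, sum_fns, hQ, mul_sum]
        have e1 : ∀ n ∈ range (mm K), a n * |hX (K + 1) n (2 ^ K + c')| = 0 := by
          intro n hn
          rw [hX_lr (mem_range.mp hn), abs_zero, mul_zero]
        have e2 : ∀ n ∈ range (mm K),
            a (mm K + 1 + n) * |hX (K + 1) (mm K + 1 + n) (2 ^ K + c')|
              = Real.sqrt 2 * (a (mm K + 1 + n) * |hX K n c'|) := by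
          intro n hn
          rw [hX_rr, abs_mul, abs_of_nonneg (Real.sqrt_nonneg 2)]
          ring
        rw [sum_congr rfl e2, sum_eq_zero e1, hX_mr, abs_neg, abs_one]
        ring
      have e2 : ∑ n ∈ range (mm (K + 1)), a n ^ 2 * hX (K + 1) n (2 ^ K + c') ^ 2
          = 2 * (∑ n ∈ range (mm K), a (mm K + 1 + n) ^ 2 * hX K n c' ^ 2) + a (mm K) ^ 2 := by
        rw [sum_fns, mul_sum]
        have e1 : ∀ n ∈ range (mm K), a n ^ 2 * hX (K + 1) n (2 ^ K + c') ^ 2 = 0 := by
          intro n hn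
          rw [hX_lr (mem_range.mp hn)]
          ring
        have e2 : ∀ n ∈ range (mm K),
            a (mm K + 1 + n) ^ 2 * hX (K + 1) (mm K + 1 + n) (2 ^ K + c') ^ 2
              = 2 * (a (mm K + 1 + n) ^ 2 * hX K n c' ^ 2) := by
          intro n hn
          rw [hX_rr]
          linear_combination (a (mm K + 1 + n) ^ 2 * hX K n c' ^ 2) * sq2
        rw [sum_congr rfl e2, sum_eq_zero e1, hX_mr]
        ring
      rw [e1, e2]
      push_cast
      exact key _ _ _ (sum_nonneg (fun n _ => by positivity)) (ih _ c' hc')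

/-- the sum with absolute values in terms of the partial sums -/
lemma hQ_eq (K : ℕ) (a : ℕ → ℝ) (c : ℕ) (hc : c < 2 ^ K) :
    hQ K a c = ∑ n ∈ range (mm K), a n * hX K n c - 2 * ∑ n ∈ range c, a n * hX K n c := by
  have hmm := mm_succ K
  obtain ⟨r, hr⟩ : ∃ r, mm K = c + r := ⟨mm K - c, by omega⟩
  rw [hQ, hr, sum_range_add, sum_range_add]
  have e1 : ∀ n ∈ range c, a n * |hX K n c| = -(a n * hX K n c) := by
    intro n hn
    rw [abs_of_nonpos (((hX_sign K c hc n (by have := mem_range.mp hn; omega)).1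
      (mem_range.mp hn)))]
    ring
  have e2 : ∀ n ∈ range r, a (c + n) * |hX K (c + n) c| = a (c + n) * hX K (c + n) c := by
    intro n hn
    rw [abs_of_nonneg (((hX_sign K c hc (c + n) (by have := mem_range.mp hn; omega)).2
      (by omega)))]
  rw [sum_congr rfl e1, sum_congr rfl e2, sum_neg_distrib]
  ring

/-- first moment -/
lemma hQ_sum (K : ℕ) (a : ℕ → ℝ) :
    ∑ c ∈ range (2 ^ K), hQ K a c = 2 ^ K * ∑ n ∈ range (mm K), a n * hβ K n := by
  unfold hQ
  rw [sum_comm, mul_sum]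
  refine sum_congr rfl (fun n _ => ?_)
  rw [← mul_sum, hβ]
  field_simp

/-- second moment -/
lemma hQ_sum_sq (K : ℕ) (a : ℕ → ℝ) :
    ∑ c ∈ range (2 ^ K), hQ K a c ^ 2 ≤ K * 2 ^ K * ∑ n ∈ range (mm K), a n ^ 2 := by
  have h1 : ∑ c ∈ range (2 ^ K), hQ K a c ^ 2
      ≤ ∑ c ∈ range (2 ^ K), K * ∑ n ∈ range (mm K), a n ^ 2 * hX K n c ^ 2 :=
    sum_le_sum (fun c hc => hQ_sq K a c (mem_range.mp hc))
  refine h1.trans (le_of_eq ?_)
  rw [← mul_sum, sum_comm, mul_assoc]
  congr 1
  rw [mul_sum]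
  refine sum_congr rfl (fun n hn => ?_)
  rw [← mul_sum]
  have h2 := hX_orth K n (mem_range.mp hn) n (mem_range.mp hn)
  rw [if_pos rfl] at h2
  have h3 : ∑ c ∈ range (2 ^ K), hX K n c ^ 2 = 2 ^ K := by
    rw [← h2]
    exact sum_congr rfl (fun c _ => sq _)
  rw [h3]
  ring

/-- Paley-Zygmund -/
lemma hQ_pz (K : ℕ) (a : ℕ → ℝ) (L : ℝ) (hL : 0 < L)
    (hA : 2 * L ≤ ∑ n ∈ range (mm K), a n * hβ K n) :
    ((range (2 ^ K)).filter (fun c => |hQ K a c| < L)).card
      ≤ (2 : ℝ) ^ K * (1 - (∑ n ∈ range (mm K), a n * hβ K n) ^ 2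
          / (4 * K * ∑ n ∈ range (mm K), a n ^ 2)) := by
  set A := ∑ n ∈ range (mm K), a n * hβ K n with hAdef
  set ρ := ∑ n ∈ range (mm K), a n ^ 2 with hρdef
  set G := (range (2 ^ K)).filter (fun c => ¬ |hQ K a c| < L) with hG
  have hApos : 0 < A := by linarith
  have hcard : (((range (2 ^ K)).filter (fun c => |hQ K a c| < L)).card : ℝ) + (G.card : ℝ)
      = 2 ^ K := by
    have := card_filter_add_card_filter_not (s := range (2 ^ K)) (fun c => |hQ K a c| < L)
    rw [card_range] at this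
    rw [hG]
    exact_mod_cast this
  have hsum : 2 ^ K * A = ∑ c ∈ (range (2 ^ K)).filter (fun c => |hQ K a c| < L), hQ K a c
      + ∑ c ∈ G, hQ K a c := by
    rw [← hQ_sum, hG, sum_filter_add_sum_filter_not]
  have h1 : ∑ c ∈ (range (2 ^ K)).filter (fun c => |hQ K a c| < L), hQ K a c
      ≤ 2 ^ K * (A / 2) := by
    have h2 : ∑ c ∈ (range (2 ^ K)).filter (fun c => |hQ K a c| < L), hQ K a c
        ≤ ∑ c ∈ (range (2 ^ K)).filter (fun c => |hQ K a c| < L), L := by
      refine sum_le_sum (fun c hc => ?_)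
      exact (le_abs_self _).trans (mem_filter.mp hc).2.le
    rw [sum_const, nsmul_eq_mul] at h2
    have h3 : (((range (2 ^ K)).filter (fun c => |hQ K a c| < L)).card : ℝ) ≤ 2 ^ K := by
      have : (0 : ℝ) ≤ G.card := by positivity
      linarith
    have h4 : (((range (2 ^ K)).filter (fun c => |hQ K a c| < L)).card : ℝ) * L ≤ 2 ^ K * (A / 2) :=
      mul_le_mul h3 (by linarith) hL.le (by positivity)
    linarith
  have h5 : 2 ^ K * (A / 2) ≤ ∑ c ∈ G, hQ K a c := by linarith
  have h6 : (∑ c ∈ G, hQ K a c) ^ 2 ≤ G.card * (K * 2 ^ K * ρ) := by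
    refine (sq_sum_le_card_mul_sum_sq).trans ?_
    refine mul_le_mul_of_nonneg_left ?_ (by positivity)
    refine le_trans ?_ (hQ_sum_sq K a)
    exact sum_le_sum_of_subset_of_nonneg (filter_subset _ _) (fun c _ _ => sq_nonneg _)
  have h7 : (2 ^ K * (A / 2)) ^ 2 ≤ G.card * (K * 2 ^ K * ρ) :=
    (pow_le_pow_left₀ (by positivity) h5 2).trans h6
  have hρ0 : 0 ≤ ρ := sum_nonneg (fun n _ => sq_nonneg _)
  have hpos : 0 < (K : ℝ) * ρ := by
    by_contra hc
    have h8 : (K : ℝ) * ρ = 0 := le_antisymm (not_lt.mp hc) (by positivity)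
    have h9 : (2 ^ K * (A / 2)) ^ 2 ≤ 0 := by
      refine h7.trans (le_of_eq ?_)
      linear_combination (G.card * 2 ^ K : ℝ) * h8
    have : 0 < (2 ^ K * (A / 2)) ^ 2 := by positivity
    linarith
  have h10 : 2 ^ K * (A ^ 2 / (4 * K * ρ)) ≤ G.card := by
    rw [← mul_div_assoc, div_le_iff₀ (by linarith)]
    have h11 : (2 : ℝ) ^ K * (2 ^ K * A ^ 2) ≤ 2 ^ K * (G.card * (4 * K * ρ)) := by
      nlinarith
    exact le_of_mul_le_mul_left h11 (by positivity)
  linarith

end Pool.Agent.H7R2
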