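import Mathlib
import Pool.Agent.H7R2.OnsA

/-!
Independent copies of the Haar system: the finite block.
-/

set_option autoImplicit false

namespace Pool.Agent.H7R2

open Finset

lemma sum_blocks (S m : ℕ) (f : ℕ → ℝ) :
    ∑ i ∈ range (S * m), f i = ∑ s ∈ range S, ∑ n ∈ range m, f (s * m + n) := by
  induction S with
  | zero => simp
  | succ S ih => rw [Nat.succ_mul, sum_range_add, sum_range_succ, ih]

/-- The functions of the finite block. -/
noncomputable def gx (S K i : ℕ) (ω : Fin S → Fin (2 ^ K)) : ℝ :=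
  if h : i / mm K < S then hX K (i % mm K) (ω ⟨i / mm K, h⟩) else 0

lemma gx_mk (S K : ℕ) (s : Fin S) (n : ℕ) (hn : n < mm K) (ω : Fin S → Fin (2 ^ K)) :
    gx S K (s * mm K + n) ω = hX K n (ω s) := by
  have h1 : ((s : ℕ) * mm K + n) / mm K = s := by
    rw [mul_comm, Nat.mul_add_div (by omega), Nat.div_eq_of_lt hn, add_zero]
  have h2 : ((s : ℕ) * mm K + n) % mm K = n := by
    rw [mul_comm, Nat.mul_add_mod, Nat.mod_eq_of_lt hn]
  rw [gx, dif_pos (by rw [h1]; exact s.2), h2]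
  congr 3
  exact Fin.ext h1

lemma idx_split {S m i : ℕ} (h : i < S * m) :
    ∃ (s : Fin S) (n : ℕ), n < m ∧ i = s * m + n := by
  have hm : 0 < m := by
    rcases Nat.eq_zero_or_pos m with h0 | h0
    · subst h0; simp at h
    · exact h0
  refine ⟨⟨i / m, ?_⟩, i % m, Nat.mod_lt _ hm, ?_⟩
  · exact Nat.div_lt_of_lt_mul (by rwa [mul_comm] at h)
  · exact (Nat.div_add_mod' i m).symm

/-- sum over the cube of a function of one coordinate -/
lemma sum_one {S q : ℕ} (s : Fin S) (F : Fin q → ℝ) :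
    ∑ ω : Fin S → Fin q, F (ω s) = (q : ℝ) ^ (S - 1) * ∑ c, F c := by
  have h1 : ∀ ω : Fin S → Fin q, F (ω s) = ∏ r, (if r = s then F (ω r) else 1) := by
    intro ω
    rw [prod_ite_eq' univ s (fun r => F (ω r)), if_pos (mem_univ _)]
  rw [sum_congr rfl (fun ω _ => h1 ω)]
  have h2 := (prod_univ_sum (fun _ : Fin S => (univ : Finset (Fin q)))
    (fun r c => if r = s then F c else 1)).symm
  rw [Fintype.piFinset_univ] at h2
  rw [h2]
  have h3 : ∀ r : Fin S, ∑ c : Fin q, (if r = s then F c else 1)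
      = if r = s then ∑ c, F c else (q : ℝ) := by
    intro r
    split_ifs
    · rfl
    · simp
  rw [prod_congr rfl (fun r _ => h3 r), ← mul_prod_erase univ _ (mem_univ s), if_pos rfl]
  have h4 : ∏ x ∈ univ.erase s, (if x = s then ∑ c, F c else (q : ℝ)) = (q : ℝ) ^ (S - 1) := by
    rw [prod_congr rfl (fun x hx => if_neg (ne_of_mem_erase hx)), prod_const, card_erase_of_mem
      (mem_univ s), card_univ, Fintype.card_fin]
  rw [h4, mul_comm]

/-- sum over the cube of a product of functions of two different coordinates -/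
lemma sum_two {S q : ℕ} {s s' : Fin S} (hs : s ≠ s') (F G : Fin q → ℝ) (hG : ∑ c, G c = 0) :
    ∑ ω : Fin S → Fin q, F (ω s) * G (ω s') = 0 := by
  have h1 : ∀ ω : Fin S → Fin q, F (ω s) * G (ω s')
      = ∏ r, ((if r = s then F (ω r) else 1) * (if r = s' then G (ω r) else 1)) := by
    intro ω
    rw [prod_mul_distrib, prod_ite_eq' univ s (fun r => F (ω r)), if_pos (mem_univ _),
      prod_ite_eq' univ s' (fun r => G (ω r)), if_pos (mem_univ _)]
  rw [sum_congr rfl (fun ω _ => h1 ω)]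
  have h2 := (prod_univ_sum (fun _ : Fin S => (univ : Finset (Fin q)))
    (fun r c => (if r = s then F c else 1) * (if r = s' then G c else 1))).symm
  rw [Fintype.piFinset_univ] at h2
  rw [h2]
  refine prod_eq_zero (mem_univ s') ?_
  rw [← hG]
  refine sum_congr rfl (fun c _ => ?_)
  rw [if_neg (Ne.symm hs), if_pos rfl, one_mul]

lemma sum_fin_cells (K : ℕ) (f : ℕ → ℝ) : ∑ c : Fin (2 ^ K), f c = ∑ c ∈ range (2 ^ K), f c :=
  Fin.sum_univ_eq_sum_range f (2 ^ K)

lemma card_cube (S q : ℕ) : (Fintype.card (Fin S → Fin q) : ℝ) = (q : ℝ) ^ S := by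
  rw [Fintype.card_fun, Fintype.card_fin, Fintype.card_fin]
  push_cast
  rfl

lemma gx_mean (S K : ℕ) (i : ℕ) (hi : i < S * mm K) :
    ∑ ω : Fin S → Fin (2 ^ K), gx S K i ω = 0 := by
  obtain ⟨s, n, hn, rfl⟩ := idx_split hi
  rw [sum_congr rfl (fun ω _ => gx_mk S K s n hn ω), sum_one s (fun c => hX K n c),
    sum_fin_cells K (fun c => hX K n c), hX_mean K n hn, mul_zero]

lemma gx_orth (S K : ℕ) (i j : ℕ) (hi : i < S * mm K) (hj : j < S * mm K) :
    ∑ ω : Fin S → Fin (2 ^ K), gx S K i ω * gx S K j ω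
      = if i = j then (Fintype.card (Fin S → Fin (2 ^ K)) : ℝ) else 0 := by
  obtain ⟨s, n, hn, rfl⟩ := idx_split hi
  obtain ⟨s', n', hn', rfl⟩ := idx_split hj
  rw [sum_congr rfl (fun ω _ => by rw [gx_mk S K s n hn ω, gx_mk S K s' n' hn' ω])]
  by_cases hs : s = s'
  · subst hs
    rw [sum_one s (fun c : Fin (2 ^ K) => hX K n c * hX K n' c),
      sum_fin_cells K (fun c => hX K n c * hX K n' c), hX_orth K n hn n' hn', card_cube]
    by_cases hnn : n = n'
    · subst hnn
      rw [if_pos rfl, if_pos rfl]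
      have hS : 0 < S := s.pos
      obtain ⟨S', rfl⟩ : ∃ S', S = S' + 1 := ⟨S - 1, by omega⟩
      push_cast
      exact (pow_succ _ _).symm
    · rw [if_neg hnn, if_neg (by omega), mul_zero]
  · rw [sum_two hs (fun c : Fin (2 ^ K) => hX K n c) (fun c : Fin (2 ^ K) => hX K n' c)
      (by rw [sum_fin_cells K (fun c => hX K n' c), hX_mean K n' hn']), if_neg]
    intro h
    apply hs
    apply Fin.ext
    have h1 : ((s : ℕ) * mm K + n) / mm K = s := by
      rw [mul_comm, Nat.mul_add_div (by omega), Nat.div_eq_of_lt hn, add_zero]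
    have h2 : ((s' : ℕ) * mm K + n') / mm K = s' := by
      rw [mul_comm, Nat.mul_add_div (by omega), Nat.div_eq_of_lt hn', add_zero]
    rw [← h1, ← h2, h]

/-- The direction of the block. -/
noncomputable def gb (S K i : ℕ) : ℝ := hβ K (i % mm K) / Real.sqrt (K * S)

lemma gb_mk (S K s n : ℕ) (hn : n < mm K) : gb S K (s * mm K + n) = hβ K n / Real.sqrt (K * S) := by
  rw [gb, mul_comm s, Nat.mul_add_mod, Nat.mod_eq_of_lt hn]

lemma gb_sq (S K : ℕ) (hS : 0 < S) (hK : 0 < K) : ∑ i ∈ range (S * mm K), gb S K i ^ 2 = 1 := by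
  rw [sum_blocks]
  have hKS : (0 : ℝ) < K * S := by positivity
  have h1 : ∀ s ∈ range S, ∑ n ∈ range (mm K), gb S K (s * mm K + n) ^ 2 = 1 / S := by
    intro s _
    have h2 : ∀ n ∈ range (mm K), gb S K (s * mm K + n) ^ 2 = hβ K n ^ 2 / (K * S) := by
      intro n hn
      rw [gb_mk S K s n (mem_range.mp hn), div_pow, Real.sq_sqrt hKS.le]
    rw [sum_congr rfl h2, ← sum_div, hβ_sq]
    field_simp
  rw [sum_congr rfl h1, sum_const, card_range, nsmul_eq_mul]
  field_simp

/-- Partial sums. -/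
noncomputable def gpath (S K : ℕ) (a : ℕ → ℝ) (N : ℕ) (ω : Fin S → Fin (2 ^ K)) : ℝ :=
  ∑ i ∈ range N, a i * gx S K i ω

lemma gpath_add (S K : ℕ) (a : ℕ → ℝ) (s : Fin S) (r : ℕ) (hr : r ≤ mm K)
    (ω : Fin S → Fin (2 ^ K)) :
    gpath S K a (s * mm K + r) ω = gpath S K a (s * mm K) ω
      + ∑ n ∈ range r, a (s * mm K + n) * hX K n (ω s) := by
  rw [gpath, sum_range_add, gpath]
  congr 1
  refine sum_congr rfl (fun n hn => ?_)
  rw [gx_mk S K s n (by have := mem_range.mp hn; omega)]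

lemma hQ_lt (S K : ℕ) (a : ℕ → ℝ) (M : ℝ) (ω : Fin S → Fin (2 ^ K))
    (h : ∀ N ≤ S * mm K, |gpath S K a N ω| < M) (s : Fin S) :
    |hQ K (fun n => a (s * mm K + n)) (ω s)| < 4 * M := by
  have hmm := mm_succ K
  have hω : ((ω s : ℕ)) < 2 ^ K := (ω s).2
  have hsm : (s : ℕ) * mm K + mm K ≤ S * mm K := by
    have := s.2
    calc (s : ℕ) * mm K + mm K = (s + 1) * mm K := by ring
      _ ≤ S * mm K := Nat.mul_le_mul_right _ this
  rw [hQ_eq K _ _ hω]
  have h1 := gpath_add S K a s (mm K) (le_refl _) ω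
  have h2 := gpath_add S K a s (ω s) (by omega) ω
  have h3 := abs_lt.mp (h (s * mm K) (by omega))
  have h4 := abs_lt.mp (h (s * mm K + mm K) hsm)
  have h5 := abs_lt.mp (h (s * mm K + ω s) (by omega))
  rw [abs_lt]
  constructor <;> linarith

/-- the size of the bad set, first bound -/
lemma card_bad_le (S K : ℕ) (a : ℕ → ℝ) (M : ℝ) :
    ((univ.filter (fun ω : Fin S → Fin (2 ^ K) => ∀ N ≤ S * mm K, |gpath S K a N ω| < M)).card : ℝ)
      ≤ ∏ s : Fin S, (((range (2 ^ K)).filter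
          (fun c => |hQ K (fun n => a (s * mm K + n)) c| < 4 * M)).card : ℝ) := by
  have h1 : (univ.filter (fun ω : Fin S → Fin (2 ^ K) => ∀ N ≤ S * mm K, |gpath S K a N ω| < M))
      ⊆ Fintype.piFinset (fun s : Fin S => univ.filter
        (fun c : Fin (2 ^ K) => |hQ K (fun n => a (s * mm K + n)) c| < 4 * M)) := by
    intro ω hω
    rw [Fintype.mem_piFinset]
    intro s
    rw [mem_filter]
    exact ⟨mem_univ _, hQ_lt S K a M ω (mem_filter.mp hω).2 s⟩
  have h2 := card_le_card h1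
  rw [Fintype.card_piFinset] at h2
  have h3 : ∀ s : Fin S, (univ.filter
        (fun c : Fin (2 ^ K) => |hQ K (fun n => a (s * mm K + n)) c| < 4 * M)).card
      ≤ ((range (2 ^ K)).filter
          (fun c => |hQ K (fun n => a (s * mm K + n)) c| < 4 * M)).card := by
    intro s
    refine card_le_card_of_injOn (fun c => (c : ℕ)) ?_ ?_
    · intro c hc
      have := (mem_filter.mp hc).2
      exact mem_filter.mpr ⟨mem_range.mpr c.2, this⟩
    · intro c _ c' _ h
      exact Fin.ext h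
  have h4 := h2.trans (prod_le_prod' (fun s _ => h3 s))
  exact_mod_cast h4

/-- the size of the bad set, for a positive correlation -/
lemma card_bad (S K : ℕ) (hS : 0 < S) (hK : 0 < K) (Λ ε M : ℝ) (hΛ : 0 < Λ) (hε : 0 < ε)
    (hM : 0 < M) (hKM : 8 * M * S ≤ ε * Real.sqrt (K * S) / 2)
    (a : ℕ → ℝ) (ha : ∑ i ∈ range (S * mm K), a i ^ 2 ≤ Λ ^ 2)
    (hab : ε ≤ ∑ i ∈ range (S * mm K), a i * gb S K i) :
    ((univ.filter (fun ω : Fin S → Fin (2 ^ K) => ∀ N ≤ S * mm K, |gpath S K a N ω| < M)).card : ℝ)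
      ≤ Real.exp (-(ε ^ 2 * S / (16 * Λ ^ 2))) * ((2 : ℝ) ^ K) ^ S := by
  classical
  refine (card_bad_le S K a M).trans ?_
  have hKS : (0 : ℝ) < K * S := by positivity
  have hsq : 0 < Real.sqrt (K * S) := Real.sqrt_pos.mpr hKS
  have hKr : (0 : ℝ) < K := by exact_mod_cast hK
  have hSr : (0 : ℝ) < S := by exact_mod_cast hS
  set A : Fin S → ℝ := fun s => ∑ n ∈ range (mm K), a (s * mm K + n) * hβ K n with hA
  set ρ : Fin S → ℝ := fun s => ∑ n ∈ range (mm K), a (s * mm K + n) ^ 2 with hρ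
  have hsumA : ε * Real.sqrt (K * S) ≤ ∑ s, A s := by
    have h1 : ∑ s, A s = Real.sqrt (K * S) * ∑ i ∈ range (S * mm K), a i * gb S K i := by
      rw [sum_blocks, mul_sum, hA,
        Fin.sum_univ_eq_sum_range (fun s => ∑ n ∈ range (mm K), a (s * mm K + n) * hβ K n) S]
      refine sum_congr rfl (fun s _ => ?_)
      rw [mul_sum]
      refine sum_congr rfl (fun n hn => ?_)
      rw [gb_mk S K s n (mem_range.mp hn)]
      field_simp
    rw [h1, mul_comm]
    exact mul_le_mul_of_nonneg_left hab hsq.le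
  have hsumρ : ∑ s, ρ s ≤ Λ ^ 2 := by
    refine le_trans (le_of_eq ?_) ha
    rw [sum_blocks, hρ,
      Fin.sum_univ_eq_sum_range (fun s => ∑ n ∈ range (mm K), a (s * mm K + n) ^ 2) S]
  have hρ0 : ∀ s, 0 ≤ ρ s := fun s => sum_nonneg (fun n _ => sq_nonneg _)
  have hCS : ∀ s, A s ^ 2 ≤ ρ s * K := by
    intro s
    have := sum_mul_sq_le_sq_mul_sq (range (mm K)) (fun n => a (s * mm K + n)) (fun n => hβ K n)
    rw [hβ_sq] at this
    exact this
  set τ : Fin S → ℝ := fun s => if 8 * M ≤ A s then A s ^ 2 / (4 * K * ρ s) else 0 with hτ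
  have hfac : ∀ s : Fin S, (((range (2 ^ K)).filter
      (fun c => |hQ K (fun n => a (s * mm K + n)) c| < 4 * M)).card : ℝ)
      ≤ 2 ^ K * Real.exp (-τ s) := by
    intro s
    rw [hτ]
    dsimp only
    split_ifs with h
    · refine (hQ_pz K (fun n => a (s * mm K + n)) (4 * M) (by linarith)
        (by simpa [hA] using (by linarith : 2 * (4 * M) ≤ A s))).trans ?_
      refine mul_le_mul_of_nonneg_left ?_ (by positivity)
      have := Real.add_one_le_exp (-(A s ^ 2 / (4 * K * ρ s)))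
      simp only [hA, hρ] at this ⊢
      linarith
    · rw [neg_zero, Real.exp_zero, mul_one]
      have : (((range (2 ^ K)).filter
        (fun c => |hQ K (fun n => a (s * mm K + n)) c| < 4 * M)).card : ℝ)
          ≤ ((range (2 ^ K)).card : ℝ) := by
        exact_mod_cast card_le_card (filter_subset _ _)
      rw [card_range] at this
      push_cast at this
      exact this
  have hprod : ∏ s : Fin S, (((range (2 ^ K)).filter
          (fun c => |hQ K (fun n => a (s * mm K + n)) c| < 4 * M)).card : ℝ)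
      ≤ ∏ s : Fin S, (2 ^ K * Real.exp (-τ s)) :=
    prod_le_prod (fun s _ => by positivity) (fun s _ => hfac s)
  refine hprod.trans ?_
  rw [prod_mul_distrib, prod_const, card_univ, Fintype.card_fin, ← Real.exp_sum,
    sum_neg_distrib, mul_comm]
  refine mul_le_mul_of_nonneg_right ?_ (by positivity)
  apply Real.exp_le_exp.mpr
  apply neg_le_neg
  -- the sum of the gains
  have hτs : ∑ s, τ s = ∑ s ∈ univ.filter (fun s => 8 * M ≤ A s), A s ^ 2 / (4 * K * ρ s) := by
    rw [hτ, sum_filter]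
  have hρpos : ∀ s ∈ univ.filter (fun s => 8 * M ≤ A s), 0 < 4 * K * ρ s := by
    intro s hs
    have h1 : 8 * M ≤ A s := (mem_filter.mp hs).2
    have h2 : 0 < A s := by linarith
    have h3 := hCS s
    have h4 : 0 < ρ s := by
      by_contra hc
      have h5 : ρ s = 0 := le_antisymm (not_lt.mp hc) (hρ0 s)
      rw [h5, zero_mul] at h3
      have : 0 < A s ^ 2 := by positivity
      linarith
    positivity
  have hsed := sq_sum_div_le_sum_sq_div (univ.filter (fun s => 8 * M ≤ A s)) A hρpos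
  rw [hτs]
  refine le_trans ?_ hsed
  have hgood : ε * Real.sqrt (K * S) / 2 ≤ ∑ s ∈ univ.filter (fun s => 8 * M ≤ A s), A s := by
    have h1 : ∑ s, A s = ∑ s ∈ univ.filter (fun s => 8 * M ≤ A s), A s
        + ∑ s ∈ univ.filter (fun s => ¬ 8 * M ≤ A s), A s :=
      (sum_filter_add_sum_filter_not _ _ _).symm
    have h2 : ∑ s ∈ univ.filter (fun s => ¬ 8 * M ≤ A s), A s ≤ 8 * M * S := by
      calc ∑ s ∈ univ.filter (fun s => ¬ 8 * M ≤ A s), A s
          ≤ ∑ s ∈ univ.filter (fun s => ¬ 8 * M ≤ A s), 8 * M :=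
            sum_le_sum (fun s hs => (not_le.mp (mem_filter.mp hs).2).le)
        _ ≤ ∑ s : Fin S, 8 * M :=
            sum_le_sum_of_subset_of_nonneg (filter_subset _ _) (fun _ _ _ => by positivity)
        _ = 8 * M * S := by
            rw [sum_const, card_univ, Fintype.card_fin, nsmul_eq_mul]; ring
    linarith
  have hden : ∑ s ∈ univ.filter (fun s => 8 * M ≤ A s), 4 * K * ρ s ≤ 4 * K * Λ ^ 2 := by
    rw [← mul_sum]
    refine mul_le_mul_of_nonneg_left ?_ (by positivity)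
    refine le_trans ?_ hsumρ
    exact sum_le_sum_of_subset_of_nonneg (filter_subset _ _) (fun s _ _ => hρ0 s)
  have hne : (univ.filter (fun s => 8 * M ≤ A s)).Nonempty := by
    by_contra hc
    rw [not_nonempty_iff_eq_empty] at hc
    rw [hc, sum_empty] at hgood
    have : 0 < ε * Real.sqrt (K * S) / 2 := by positivity
    linarith
  have hdenpos : 0 < ∑ s ∈ univ.filter (fun s => 8 * M ≤ A s), 4 * K * ρ s :=
    sum_pos hρpos hne
  have hnum : (ε * Real.sqrt (K * S) / 2) ^ 2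
      ≤ (∑ s ∈ univ.filter (fun s => 8 * M ≤ A s), A s) ^ 2 :=
    pow_le_pow_left₀ (by positivity) hgood 2
  calc ε ^ 2 * S / (16 * Λ ^ 2) = (ε * Real.sqrt (K * S) / 2) ^ 2 / (4 * K * Λ ^ 2) := by
        rw [div_pow, mul_pow, Real.sq_sqrt hKS.le]
        field_simp
        norm_num
    _ ≤ _ := div_le_div₀ (sq_nonneg _) hnum hdenpos hden

/-- The finite block. -/
structure Block (Λ ε η M : ℝ) where
  Ω : Type
  [fin : Fintype Ω]
  [ne : Nonempty Ω]
  R : ℕ
  x : ℕ → Ω → ℝ
  b : ℕ → ℝ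
  b_sq : ∑ i ∈ range R, b i ^ 2 = 1
  orth : ∀ i < R, ∀ j < R, ∑ ω, x i ω * x j ω = if i = j then (Fintype.card Ω : ℝ) else 0
  mean : ∀ i < R, ∑ ω, x i ω = 0
  bad : ∀ a : ℕ → ℝ, ∑ i ∈ range R, a i ^ 2 ≤ Λ ^ 2 → ε ≤ |∑ i ∈ range R, a i * b i| →
    ∀ B : Finset Ω, (∀ ω ∈ B, ∀ N ≤ R, |∑ i ∈ range N, a i * x i ω| < M) →
      (B.card : ℝ) ≤ η * Fintype.card Ω

attribute [instance] Block.fin Block.ne

theorem exists_block (Λ ε η M : ℝ) (hΛ : 0 < Λ) (hε : 0 < ε) (hη : 0 < η) (hM : 0 < M) :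
    Nonempty (Block Λ ε η M) := by
  classical
  obtain ⟨S, hS0, hS⟩ : ∃ S : ℕ, 0 < S ∧ Real.exp (-(ε ^ 2 * S / (16 * Λ ^ 2))) ≤ η := by
    obtain ⟨S, hS⟩ := exists_nat_gt (-Real.log η * (16 * Λ ^ 2) / ε ^ 2)
    refine ⟨S + 1, by omega, ?_⟩
    rw [← Real.le_log_iff_exp_le hη]
    have h1 : -Real.log η * (16 * Λ ^ 2) < S * ε ^ 2 := (div_lt_iff₀ (by positivity)).mp hS
    have h2 : -Real.log η < ε ^ 2 * ((S + 1 : ℕ) : ℝ) / (16 * Λ ^ 2) := by
      rw [lt_div_iff₀ (by positivity)]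
      push_cast
      nlinarith [sq_nonneg ε]
    linarith
  obtain ⟨K, hK0, hK⟩ : ∃ K : ℕ, 0 < K ∧ 8 * M * S ≤ ε * Real.sqrt (K * S) / 2 := by
    obtain ⟨K, hK⟩ := exists_nat_gt ((16 * M * S / ε) ^ 2)
    have hSr : (1 : ℝ) ≤ S := by exact_mod_cast hS0
    refine ⟨K + 1, by omega, ?_⟩
    have h1 : 16 * M * S / ε ≤ Real.sqrt (((K + 1 : ℕ) : ℝ) * S) := by
      apply Real.le_sqrt_of_sq_le
      push_cast
      have hKnn : (0 : ℝ) ≤ K := Nat.cast_nonneg K
      nlinarith
    rw [div_le_iff₀ hε] at h1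
    linarith
  refine ⟨{ Ω := Fin S → Fin (2 ^ K)
            fin := inferInstance
            ne := ⟨fun _ => ⟨0, by positivity⟩⟩
            R := S * mm K
            x := gx S K
            b := gb S K
            b_sq := gb_sq S K hS0 hK0
            orth := fun i hi j hj => gx_orth S K i j hi hj
            mean := fun i hi => gx_mean S K i hi
            bad := ?_ }⟩
  intro a ha hab B hB
  have key : ∀ a : ℕ → ℝ, ∑ i ∈ range (S * mm K), a i ^ 2 ≤ Λ ^ 2 →
      ε ≤ ∑ i ∈ range (S * mm K), a i * gb S K i →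
      (∀ ω ∈ B, ∀ N ≤ S * mm K, |∑ i ∈ range N, a i * gx S K i ω| < M) →
      (B.card : ℝ) ≤ η * Fintype.card (Fin S → Fin (2 ^ K)) := by
    intro a ha hab hB
    have h1 : B ⊆ univ.filter
        (fun ω : Fin S → Fin (2 ^ K) => ∀ N ≤ S * mm K, |gpath S K a N ω| < M) := by
      intro ω hω
      exact mem_filter.mpr ⟨mem_univ _, hB ω hω⟩
    have h2 : (B.card : ℝ) ≤ ((univ.filter
        (fun ω : Fin S → Fin (2 ^ K) => ∀ N ≤ S * mm K, |gpath S K a N ω| < M)).card : ℝ) := by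
      exact_mod_cast card_le_card h1
    refine h2.trans ((card_bad S K hS0 hK0 Λ ε M hΛ hε hM hK a ha hab).trans ?_)
    rw [card_cube]
    push_cast
    exact mul_le_mul_of_nonneg_right hS (by positivity)
  rcases le_total 0 (∑ i ∈ range (S * mm K), a i * gb S K i) with h | h
  · rw [abs_of_nonneg h] at hab
    exact key a ha hab hB
  · rw [abs_of_nonpos h] at hab
    refine key (fun i => -a i) (by simpa using ha) ?_ ?_
    · simpa [sum_neg_distrib] using hab
    · intro ω hω N hN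
      have := hB ω hω N hN
      simpa [sum_neg_distrib] using this

end Pool.Agent.H7R2
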