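import Mathlib
import Pool.Agent.H7R2.OnsB

/-!
Digits: finite blocks inside `L²[0,1]`.
-/

set_option autoImplicit false

namespace Pool.Agent.H7R2

open Finset MeasureTheory

/-- Lebesgue measure on the unit interval. -/
noncomputable abbrev μI : Measure ℝ := volume.restrict (Set.Icc (0 : ℝ) 1)

instance : IsProbabilityMeasure μI := ⟨by simp [μI]⟩

/-- The Hilbert space. -/
abbrev HI : Type := Lp ℝ 2 μI

lemma int_floor (N : ℕ) (hN : 0 < N) (Φ : ℕ → ℝ) :
    ∫ t, Φ ⌊(N : ℝ) * t⌋₊ ∂μI = (1 / N) * ∑ i ∈ range N, Φ i := by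
  have hNr : (0 : ℝ) < N := by exact_mod_cast hN
  have hmeas : Measurable (fun t : ℝ => Φ ⌊(N : ℝ) * t⌋₊) :=
    (measurable_from_nat (f := Φ)).comp (Nat.measurable_floor.comp (measurable_const_mul _))
  have hpiece : ∀ k : ℕ, Set.EqOn (fun t : ℝ => Φ ⌊(N : ℝ) * t⌋₊) (fun _ => Φ k)
      (Set.Ioo ((k : ℝ) / N) (((k + 1 : ℕ) : ℝ) / N)) := by
    intro k t ht
    have h1 : (k : ℝ) < N * t := by
      have := (div_lt_iff₀ hNr).mp ht.1
      linarith
    have h2 : (N : ℝ) * t < ((k + 1 : ℕ) : ℝ) := by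
      have := (lt_div_iff₀ hNr).mp ht.2
      linarith
    have h3 : ⌊(N : ℝ) * t⌋₊ = k := by
      rw [Nat.floor_eq_iff (by have : (0 : ℝ) ≤ k := Nat.cast_nonneg k; linarith)]
      exact ⟨h1.le, by push_cast at h2; exact h2⟩
    simp only [h3]
  have hint : ∀ k : ℕ, ∫ t in ((k : ℝ) / N)..(((k + 1 : ℕ) : ℝ) / N), Φ ⌊(N : ℝ) * t⌋₊
      = 1 / N * Φ k := by
    intro k
    have hle : (k : ℝ) / N ≤ ((k + 1 : ℕ) : ℝ) / N := by
      push_cast
      exact div_le_div_of_nonneg_right (by linarith) hNr.le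
    rw [intervalIntegral.integral_of_le hle, integral_Ioc_eq_integral_Ioo,
      setIntegral_congr_fun measurableSet_Ioo (hpiece k), setIntegral_const]
    rw [Real.volume_real_Ioo_of_le hle, smul_eq_mul]
    push_cast
    congr 1
    field_simp
    ring
  have hii : ∀ k < N, IntervalIntegrable (fun t : ℝ => Φ ⌊(N : ℝ) * t⌋₊) volume
      ((k : ℝ) / N) (((k + 1 : ℕ) : ℝ) / N) := by
    intro k _
    have hle : (k : ℝ) / N ≤ ((k + 1 : ℕ) : ℝ) / N := by
      push_cast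
      exact div_le_div_of_nonneg_right (by linarith) hNr.le
    rw [intervalIntegrable_iff_integrableOn_Ioo_of_le hle]
    exact (integrableOn_congr_fun (hpiece k) measurableSet_Ioo).mpr
      (integrableOn_const (by rw [Real.volume_Ioo]; exact ENNReal.ofReal_ne_top))
  have hsum := intervalIntegral.sum_integral_adjacent_intervals
    (a := fun k : ℕ => (k : ℝ) / N) (f := fun t : ℝ => Φ ⌊(N : ℝ) * t⌋₊) (μ := volume) (n := N)
    (fun k hk => hii k hk)
  rw [sum_congr rfl (fun k _ => hint k), ← mul_sum] at hsum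
  rw [hsum]
  have h0 : ((0 : ℕ) : ℝ) / N = 0 := by simp
  have h1 : (N : ℝ) / N = 1 := div_self hNr.ne'
  rw [h0, h1, intervalIntegral.integral_of_le zero_le_one, ← integral_Icc_eq_integral_Ioc]

section digits

variable {Ω : Type} [Fintype Ω] [Nonempty Ω]

/-- The digit of a natural number. -/
noncomputable def dgt (Ω : Type) [Fintype Ω] [Nonempty Ω] (n : ℕ) : Ω :=
  (Fintype.equivFin Ω).symm ⟨n % Fintype.card Ω, Nat.mod_lt n Fintype.card_pos⟩

lemma dgt_add (n i : ℕ) : dgt Ω (i * Fintype.card Ω + n) = dgt Ω n := by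
  unfold dgt
  congr 2
  rw [mul_comm, Nat.mul_add_mod]

lemma sum_dgt (F : Ω → ℝ) : ∑ d ∈ range (Fintype.card Ω), F (dgt Ω d) = ∑ ω, F ω := by
  rw [← Fin.sum_univ_eq_sum_range (fun d => F (dgt Ω d))]
  rw [← Equiv.sum_comp (Fintype.equivFin Ω).symm F]
  refine sum_congr rfl (fun d _ => ?_)
  unfold dgt
  congr 2
  exact Fin.ext (Nat.mod_eq_of_lt d.2)

lemma sum_dgt_pow (F : Ω → ℝ) (j : ℕ) :
    ∑ i ∈ range (Fintype.card Ω ^ (j + 1)), F (dgt Ω i)
      = (Fintype.card Ω : ℝ) ^ j * ∑ ω, F ω := by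
  rw [pow_succ, sum_blocks]
  have h1 : ∀ s ∈ range (Fintype.card Ω ^ j), ∑ n ∈ range (Fintype.card Ω),
      F (dgt Ω (s * Fintype.card Ω + n)) = ∑ ω, F ω := by
    intro s _
    rw [← sum_dgt F]
    refine sum_congr rfl (fun n _ => ?_)
    rw [dgt_add]
  rw [sum_congr rfl h1, sum_const, card_range, nsmul_eq_mul]
  push_cast
  rfl

/-- The digit map on the interval. -/
noncomputable def DM (Ω : Type) [Fintype Ω] [Nonempty Ω] (j : ℕ) (t : ℝ) : Ω :=
  dgt Ω ⌊((Fintype.card Ω ^ (j + 1) : ℕ) : ℝ) * t⌋₊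

lemma DM_meas (j : ℕ) (F : Ω → ℝ) : Measurable (fun t => F (DM Ω j t)) :=
  (measurable_from_nat (f := fun n => F (dgt Ω n))).comp
    (Nat.measurable_floor.comp (measurable_const_mul _))

lemma card_pos' : 0 < Fintype.card Ω := Fintype.card_pos

lemma int_DM (j : ℕ) (F : Ω → ℝ) :
    ∫ t, F (DM Ω j t) ∂μI = (∑ ω, F ω) / Fintype.card Ω := by
  have h := int_floor (Fintype.card Ω ^ (j + 1)) (pow_pos card_pos' _) (fun n => F (dgt Ω n))
  have hq : (0 : ℝ) < Fintype.card Ω := by exact_mod_cast (card_pos' : 0 < Fintype.card Ω)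
  rw [sum_dgt_pow] at h
  rw [show (fun t => F (DM Ω j t))
    = fun t => F (dgt Ω ⌊((Fintype.card Ω ^ (j + 1) : ℕ) : ℝ) * t⌋₊) from rfl, h]
  push_cast
  field_simp
  ring

lemma int_DM_two {j j' : ℕ} (hj : j < j') (F G : Ω → ℝ) (hG : ∑ ω, G ω = 0) :
    ∫ t, F (DM Ω j t) * G (DM Ω j' t) ∂μI = 0 := by
  obtain ⟨r, rfl⟩ : ∃ r, j' = j + (r + 1) := ⟨j' - j - 1, by omega⟩
  set q := Fintype.card Ω with hqdef
  have hqpos : 0 < q := card_pos'
  have hfl : ∀ t : ℝ, ⌊((q ^ (j + 1) : ℕ) : ℝ) * t⌋₊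
      = ⌊((q ^ (j + (r + 1) + 1) : ℕ) : ℝ) * t⌋₊ / q ^ (r + 1) := by
    intro t
    rw [← Nat.floor_div_natCast]
    congr 1
    have hq : (q : ℝ) ≠ 0 := by positivity
    push_cast
    field_simp
    ring
  have h := int_floor (q ^ (j + (r + 1) + 1)) (pow_pos hqpos _)
    (fun n => F (dgt Ω (n / q ^ (r + 1))) * G (dgt Ω n))
  have hfun : (fun t => F (DM Ω j t) * G (DM Ω (j + (r + 1)) t))
      = fun t : ℝ => F (dgt Ω (⌊((q ^ (j + (r + 1) + 1) : ℕ) : ℝ) * t⌋₊ / q ^ (r + 1)))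
          * G (dgt Ω ⌊((q ^ (j + (r + 1) + 1) : ℕ) : ℝ) * t⌋₊) := by
    funext t
    rw [DM, DM, ← hqdef, hfl t]
  rw [hfun, h]
  have hz : ∑ i ∈ range (q ^ (j + (r + 1) + 1)),
      F (dgt Ω (i / q ^ (r + 1))) * G (dgt Ω i) = 0 := by
    rw [pow_succ q (j + (r + 1)), sum_blocks]
    refine sum_eq_zero (fun s _ => ?_)
    have h1 : ∀ n ∈ range q, F (dgt Ω ((s * q + n) / q ^ (r + 1))) * G (dgt Ω (s * q + n))
        = F (dgt Ω (s / q ^ r)) * G (dgt Ω n) := by
      intro n hn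
      have h2 : (s * q + n) / q ^ (r + 1) = s / q ^ r := by
        rw [pow_succ, mul_comm (q ^ r) q, ← Nat.div_div_eq_div_mul, mul_comm s q,
          Nat.mul_add_div hqpos, Nat.div_eq_of_lt (mem_range.mp hn), add_zero]
      rw [h2, hqdef, dgt_add]
    rw [sum_congr rfl h1, ← mul_sum, hqdef, sum_dgt G, hG, mul_zero]
  rw [hz, mul_zero]

lemma DM_memLp (j : ℕ) (F : Ω → ℝ) : MemLp (fun t => F (DM Ω j t)) 2 μI := by
  refine MemLp.of_bound (DM_meas j F).aestronglyMeasurable (∑ ω, |F ω|) ?_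
  filter_upwards with t
  rw [Real.norm_eq_abs]
  exact single_le_sum (f := fun ω => |F ω|) (fun ω _ => abs_nonneg _) (mem_univ (DM Ω j t))

/-- The block functions as vectors. -/
noncomputable def TH (j : ℕ) (F : Ω → ℝ) : HI := (DM_memLp j F).toLp _

lemma TH_coe (j : ℕ) (F : Ω → ℝ) : (TH j F : ℝ → ℝ) =ᵐ[μI] fun t => F (DM Ω j t) :=
  MemLp.coeFn_toLp _

lemma inner_eq_int (f g : HI) : inner ℝ f g = ∫ t, f t * g t ∂μI := by
  rw [L2.inner_def]
  refine integral_congr_ae ?_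
  filter_upwards with t
  simp [mul_comm]

lemma inner_TH (j j' : ℕ) (F G : Ω → ℝ) :
    inner ℝ (TH j F) (TH j' G) = ∫ t, F (DM Ω j t) * G (DM Ω j' t) ∂μI := by
  rw [inner_eq_int]
  refine integral_congr_ae ?_
  filter_upwards [TH_coe j F, TH_coe j' G] with t h1 h2
  rw [h1, h2]

lemma inner_TH_same (j : ℕ) (F G : Ω → ℝ) :
    inner ℝ (TH j F) (TH j G) = (∑ ω, F ω * G ω) / Fintype.card Ω := by
  rw [inner_TH, int_DM j (fun ω => F ω * G ω)]

lemma inner_TH_ne {j j' : ℕ} (hj : j ≠ j') (F : Ω → ℝ) (hF : ∑ ω, F ω = 0) :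
    inner ℝ (TH j F) (TH j' F) = 0 := by
  rcases lt_or_gt_of_ne hj with h | h
  · rw [inner_TH, int_DM_two h F F hF]
  · rw [real_inner_comm, inner_TH, int_DM_two h F F hF]

/-- the vectors tend weakly to zero -/
lemma TH_weak (F : Ω → ℝ) (hF : ∑ ω, F ω = 0) (hF1 : ∑ ω, F ω * F ω = Fintype.card Ω) (e : HI) :
    Filter.Tendsto (fun j => inner ℝ (TH j F) e) Filter.atTop (nhds 0) := by
  have hq : (0 : ℝ) < Fintype.card Ω := by exact_mod_cast (card_pos' : 0 < Fintype.card Ω)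
  have ho : Orthonormal ℝ (fun j => TH j F) := by
    rw [orthonormal_iff_ite]
    intro i j
    by_cases h : i = j
    · subst h
      rw [if_pos rfl, inner_TH_same, hF1, div_self hq.ne']
    · rw [if_neg h, inner_TH_ne h F hF]
  have hs := (ho.inner_products_summable e).tendsto_atTop_zero
  rw [tendsto_zero_iff_norm_tendsto_zero]
  have h2 := hs.sqrt
  rw [Real.sqrt_zero] at h2
  refine h2.congr (fun j => ?_)
  exact Real.sqrt_sq (norm_nonneg _)

/-- the measure of a set of cells -/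
lemma measure_DM (j : ℕ) (B : Finset Ω) :
    μI {t | DM Ω j t ∈ B} = ENNReal.ofReal (B.card / Fintype.card Ω) := by
  classical
  have hm : MeasurableSet {t | DM Ω j t ∈ B} := by
    have h1 : {t | DM Ω j t ∈ B} = (fun t => (if DM Ω j t ∈ B then (1 : ℝ) else 0)) ⁻¹' {1} := by
      ext t
      simp
    rw [h1]
    exact DM_meas j (fun ω => if ω ∈ B then (1 : ℝ) else 0) (measurableSet_singleton _)
  have h := int_DM j (fun ω => if ω ∈ B then (1 : ℝ) else 0)
  have h2 : ∫ t, (if DM Ω j t ∈ B then (1 : ℝ) else 0) ∂μI = μI.real {t | DM Ω j t ∈ B} := by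
    have h3 : (fun t => (if DM Ω j t ∈ B then (1 : ℝ) else 0))
        = Set.indicator {t | DM Ω j t ∈ B} (fun _ => (1 : ℝ)) := by
      funext t
      simp [Set.indicator_apply]
    rw [h3, integral_indicator hm, setIntegral_const, smul_eq_mul, mul_one]
  rw [h2] at h
  rw [← ENNReal.ofReal_toReal (measure_ne_top μI {t | DM Ω j t ∈ B})]
  congr 1
  rw [Measure.real] at h
  rw [h]
  congr 1
  simp

end digits

end Pool.Agent.H7R2
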