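import Mathlib
import Pool.Agent.H7R2.OnsC

/-!
Orthonormal families whose span contains no bounded function.
-/

set_option autoImplicit false

namespace Pool.Agent.H7R2

open Finset MeasureTheory

/-- The bounded functions. -/
def Bd : Submodule ℝ HI where
  carrier := {f | ∃ C : ℝ, ∀ᵐ t ∂μI, |f t| ≤ C}
  add_mem' := by
    rintro f g ⟨C, hC⟩ ⟨C', hC'⟩
    refine ⟨C + C', ?_⟩
    filter_upwards [hC, hC', Lp.coeFn_add f g] with t h1 h2 h3
    rw [h3, Pi.add_apply]
    exact (abs_add_le _ _).trans (add_le_add h1 h2)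
  zero_mem' := by
    refine ⟨0, ?_⟩
    filter_upwards [Lp.coeFn_zero ℝ 2 μI] with t h1
    rw [h1]
    simp
  smul_mem' := by
    rintro c f ⟨C, hC⟩
    refine ⟨|c| * C, ?_⟩
    filter_upwards [hC, Lp.coeFn_smul c f] with t h1 h2
    rw [h2, Pi.smul_apply, smul_eq_mul, abs_mul]
    exact mul_le_mul_of_nonneg_left h1 (abs_nonneg c)

lemma mem_Bd {f : HI} : f ∈ Bd ↔ ∃ C : ℝ, ∀ᵐ t ∂μI, |f t| ≤ C := Iff.rfl

lemma rpow_memLp (r : ℝ) (hr' : r ≤ 1 / 4) : MemLp (fun t : ℝ => t ^ (-r)) 2 μI := by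
  have hm : Measurable (fun t : ℝ => t ^ (-r)) := by fun_prop
  rw [memLp_two_iff_integrable_sq hm.aestronglyMeasurable]
  have h1 : IntervalIntegrable (fun t : ℝ => t ^ (-(2 * r))) volume 0 1 :=
    intervalIntegral.intervalIntegrable_rpow' (by linarith)
  rw [intervalIntegrable_iff_integrableOn_Ioc_of_le zero_le_one] at h1
  have h2 : IntegrableOn (fun t : ℝ => (t ^ (-r)) ^ 2) (Set.Ioc 0 1) volume := by
    refine h1.congr_fun ?_ measurableSet_Ioc
    intro t ht
    simp only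
    rw [← Real.rpow_natCast, ← Real.rpow_mul ht.1.le]
    congr 1
    push_cast
    ring
  exact (integrableOn_Icc_iff_integrableOn_Ioc).mpr h2

/-- bounded functions have infinite codimension -/
lemma sup_Bd_ne_top (V : Submodule ℝ HI) [FiniteDimensional ℝ V] : V ⊔ Bd ≠ ⊤ := by
  intro htop
  have hfin : Module.Finite ℝ (HI ⧸ Bd) := by
    refine Module.Finite.of_surjective (Bd.mkQ.comp V.subtype) ?_
    intro y
    obtain ⟨x, rfl⟩ := Submodule.mkQ_surjective Bd y
    have hx : x ∈ V ⊔ Bd := by rw [htop]; trivial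
    obtain ⟨v, hv, b, hb, rfl⟩ := Submodule.mem_sup.mp hx
    refine ⟨⟨v, hv⟩, ?_⟩
    rw [LinearMap.comp_apply, Submodule.subtype_apply, map_add,
      (Submodule.Quotient.mk_eq_zero Bd).mpr hb |> fun h => (show Bd.mkQ b = 0 from h), add_zero]
  set n := Module.finrank ℝ (HI ⧸ Bd) + 1 with hn
  have hnpos : (0 : ℝ) < n := by positivity
  have hexp : ∀ k : Fin n, (((k : ℕ) + 1 : ℕ) : ℝ) / (4 * n) ≤ 1 / 4 := by
    intro k
    rw [div_le_div_iff₀ (by positivity) (by norm_num)]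
    have : (((k : ℕ) + 1 : ℕ) : ℝ) ≤ n := by exact_mod_cast k.2
    linarith
  set w : Fin n → HI := fun k => (rpow_memLp _ (hexp k)).toLp _ with hw
  have hdep : ¬ LinearIndependent ℝ (fun k => Bd.mkQ (w k)) := by
    intro h
    have := h.fintype_card_le_finrank
    rw [Fintype.card_fin] at this
    omega
  rw [Fintype.not_linearIndependent_iff] at hdep
  obtain ⟨c, hc, k0, hk0⟩ := hdep
  have hmem : ∑ k, c k • w k ∈ Bd := by
    have h1 : Bd.mkQ (∑ k, c k • w k) = 0 := by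
      rw [map_sum, ← hc]
      exact sum_congr rfl (fun k _ => map_smul _ _ _)
    exact (Submodule.Quotient.mk_eq_zero Bd).mp h1
  obtain ⟨C, hC⟩ := mem_Bd.mp hmem
  set G : ℝ → ℝ := fun t => ∑ k : Fin n, c k * t ^ (-((((k : ℕ) + 1 : ℕ) : ℝ) / (4 * n))) with hG
  have hcoe : ∀ᵐ t ∂μI, |G t| ≤ C := by
    have h1 : ∀ᵐ t ∂μI, ∀ k : Fin n, (w k) t = t ^ (-((((k : ℕ) + 1 : ℕ) : ℝ) / (4 * n))) := by
      rw [ae_all_iff]
      intro k
      exact MemLp.coeFn_toLp _
    have h2 : ∀ᵐ t ∂μI, (∑ k, c k • w k : HI) t = ∑ k, (c k • w k : HI) t := by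
      filter_upwards [Lp.coeFn_finsetSum univ (fun k => c k • w k)] with t ht
      rw [ht, Finset.sum_apply]
    have h3 : ∀ᵐ t ∂μI, ∀ k : Fin n, (c k • w k : HI) t = c k * w k t := by
      rw [ae_all_iff]
      intro k
      filter_upwards [Lp.coeFn_smul (c k) (w k)] with t ht
      rw [ht, Pi.smul_apply, smul_eq_mul]
    filter_upwards [hC, h1, h2, h3] with t g0 g1 g2 g3
    rw [g2] at g0
    convert g0 using 2
    rw [hG]
    refine sum_congr rfl (fun k _ => ?_)
    rw [g3 k, g1 k]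
  have hcont : ContinuousOn (fun t => |G t|) (Set.Ioo (0 : ℝ) 1) := by
    refine ContinuousOn.abs ?_
    refine continuousOn_finsetSum univ (fun k _ => ?_)
    refine ContinuousOn.mul continuousOn_const ?_
    intro t ht
    exact (Real.continuousAt_rpow_const t _ (Or.inl ht.1.ne')).continuousWithinAt
  have hall : ∀ t ∈ Set.Ioo (0 : ℝ) 1, |G t| ≤ C := by
    have hopen : IsOpen (Set.Ioo (0 : ℝ) 1 ∩ (fun t => |G t|) ⁻¹' Set.Ioi C) :=
      hcont.isOpen_inter_preimage isOpen_Ioo isOpen_Ioi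
    have hnull : volume (Set.Ioo (0 : ℝ) 1 ∩ (fun t => |G t|) ⁻¹' Set.Ioi C) = 0 := by
      have h1 : volume.restrict (Set.Icc (0 : ℝ) 1) {t | ¬ |G t| ≤ C} = 0 := hcoe
      refine le_antisymm ?_ bot_le
      rw [← h1, Measure.restrict_apply₀']
      · refine measure_mono ?_
        rintro t ⟨ht1, ht2⟩
        exact ⟨not_le.mpr ht2, ⟨ht1.1.le, ht1.2.le⟩⟩
      · exact measurableSet_Icc.nullMeasurableSet
    have hempty := (hopen.measure_eq_zero_iff (μ := volume)).mp hnull
    intro t ht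
    by_contra hlt
    have : t ∈ Set.Ioo (0 : ℝ) 1 ∩ (fun t => |G t|) ⁻¹' Set.Ioi C := ⟨ht, not_le.mp hlt⟩
    rw [hempty] at this
    exact this
  set P : Polynomial ℝ := ∑ k : Fin n, Polynomial.C (c k) * Polynomial.X ^ ((k : ℕ) + 1) with hP
  have hPb : ∀ y : ℝ, 1 < y → |P.eval y| ≤ C := by
    intro y hy
    have hy0 : (0 : ℝ) < y := by linarith
    have ht : y ^ (-(4 * n : ℝ)) ∈ Set.Ioo (0 : ℝ) 1 :=
      ⟨Real.rpow_pos_of_pos hy0 _, Real.rpow_lt_one_of_one_lt_of_neg hy (by linarith)⟩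
    have h1 := hall _ ht
    convert h1 using 2
    rw [hP, hG, Polynomial.eval_finsetSum]
    refine sum_congr rfl (fun k _ => ?_)
    rw [Polynomial.eval_mul, Polynomial.eval_C, Polynomial.eval_pow, Polynomial.eval_X,
      ← Real.rpow_mul hy0.le]
    congr 1
    rw [← Real.rpow_natCast]
    congr 1
    field_simp
  have hdeg : P.degree ≤ 0 := by
    rw [← Polynomial.isBoundedUnder_abs_atTop_iff]
    exact Filter.isBoundedUnder_of_eventually_le
      (Filter.eventually_atTop.mpr ⟨2, fun y hy => hPb y (by linarith)⟩)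
  apply hk0
  have h1 : P.coeff ((k0 : ℕ) + 1) = c k0 := by
    rw [hP, Polynomial.finsetSum_coeff]
    simp only [Polynomial.coeff_C_mul, Polynomial.coeff_X_pow]
    rw [sum_eq_single k0]
    · simp
    · intro k _ hk
      rw [if_neg, mul_zero]
      intro h
      apply hk
      exact Fin.ext (by omega)
    · intro h
      exact absurd (mem_univ _) h
  rw [← h1]
  refine Polynomial.coeff_eq_zero_of_degree_lt (lt_of_le_of_lt hdeg ?_)
  exact_mod_cast Nat.succ_pos _

/-- A finite orthonormal family whose span contains no bounded function. -/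
structure St where
  n : ℕ
  φ : ℕ → HI
  orth : ∀ i < n, ∀ j < n, inner ℝ (φ i) (φ j) = if i = j then (1 : ℝ) else 0
  avoid : ∀ v ∈ Submodule.span ℝ (φ '' Set.Iio n), v ∈ Bd → v = 0

/-- The span. -/
noncomputable def St.V (s : St) : Submodule ℝ HI := Submodule.span ℝ (s.φ '' Set.Iio s.n)

instance (s : St) : FiniteDimensional ℝ s.V :=
  FiniteDimensional.span_of_finite ℝ ((Set.finite_Iio s.n).image _)

/-- The projection. -/
noncomputable def St.P (s : St) (w : HI) : HI := ∑ i ∈ range s.n, inner ℝ (s.φ i) w • s.φ i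

lemma St.φ_mem (s : St) {i : ℕ} (hi : i < s.n) : s.φ i ∈ s.V :=
  Submodule.subset_span ⟨i, hi, rfl⟩

lemma St.P_mem (s : St) (w : HI) : s.P w ∈ s.V :=
  Submodule.sum_mem _ (fun i hi => Submodule.smul_mem _ _ (s.φ_mem (mem_range.mp hi)))

lemma St.inner_P (s : St) (w : HI) {i : ℕ} (hi : i < s.n) :
    inner ℝ (s.φ i) (s.P w) = inner ℝ (s.φ i) w := by
  rw [St.P, inner_sum, sum_eq_single i]
  · rw [real_inner_smul_right, s.orth i hi i hi, if_pos rfl, mul_one]
  · intro j hj hji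
    rw [real_inner_smul_right, s.orth i hi j (mem_range.mp hj), if_neg (Ne.symm hji), mul_zero]
  · intro h
    exact absurd (mem_range.mpr hi) h

lemma St.norm_P_le_sum (s : St) (w : HI) :
    ‖s.P w‖ ≤ ∑ i ∈ range s.n, |inner ℝ (s.φ i) w| := by
  refine (norm_sum_le _ _).trans (sum_le_sum (fun i hi => ?_))
  have h1 : ‖s.φ i‖ = 1 := by
    have := s.orth i (mem_range.mp hi) i (mem_range.mp hi)
    rw [if_pos rfl, real_inner_self_eq_norm_sq] at this
    nlinarith [norm_nonneg (s.φ i)]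
  rw [norm_smul, h1, mul_one, Real.norm_eq_abs]

lemma St.norm_P_le (s : St) (w : HI) : ‖s.P w‖ ≤ ‖w‖ := by
  have h1 : inner ℝ (s.P w) (s.P w) = inner ℝ (s.P w) w := by
    have e : ∀ z : HI, inner ℝ (s.P w) z = ∑ i ∈ range s.n, inner ℝ (s.φ i) w * inner ℝ (s.φ i) z := by
      intro z
      rw [St.P, sum_inner]
      exact sum_congr rfl (fun i _ => real_inner_smul_left _ _ _)
    rw [e, e]
    exact sum_congr rfl (fun i hi => by rw [s.inner_P w (mem_range.mp hi)])
  have h2 := real_inner_le_norm (s.P w) w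
  rw [← h1, real_inner_self_eq_norm_sq] at h2
  rcases eq_or_lt_of_le (norm_nonneg (s.P w)) with h | h
  · rw [← h]; exact norm_nonneg _
  · nlinarith

lemma St.P_add (s : St) (w z : HI) : s.P (w + z) = s.P w + s.P z := by
  simp only [St.P, inner_add_right, add_smul, sum_add_distrib]

/-- vectors outside of the span modulo bounded functions are dense -/
lemma exists_near (V : Submodule ℝ HI) [FiniteDimensional ℝ V] (u : HI) (δ : ℝ) (hδ : 0 < δ) :
    ∃ x : HI, ‖x - u‖ ≤ δ ∧ x ∉ V ⊔ Bd := by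
  by_cases hu : u ∈ V ⊔ Bd
  · obtain ⟨z, hz⟩ : ∃ z, z ∉ V ⊔ Bd := by
      by_contra hc
      push Not at hc
      exact sup_Bd_ne_top V (Submodule.eq_top_iff'.mpr hc)
    refine ⟨u + (δ / (‖z‖ + 1)) • z, ?_, ?_⟩
    · rw [add_sub_cancel_left, norm_smul, Real.norm_of_nonneg (by positivity), div_mul_eq_mul_div,
        div_le_iff₀ (by positivity)]
      nlinarith [norm_nonneg z]
    · intro h
      have h1 := Submodule.sub_mem _ h hu
      rw [add_sub_cancel_left, Submodule.smul_mem_iff _ (by positivity)] at h1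
      exact hz h1
  · exact ⟨u, by simpa using hδ.le, hu⟩

/-- Adding one vector. -/
lemma St.ext_one (s : St) (x : HI) (hx : x ∉ s.V ⊔ Bd) :
    ∃ s' : St, s'.n = s.n + 1 ∧ (∀ i < s.n, s'.φ i = s.φ i) ∧ x ∈ s'.V ∧
      s'.φ s.n = ‖x - s.P x‖⁻¹ • (x - s.P x) := by
  set y := x - s.P x with hy
  have hy0 : y ≠ 0 := by
    intro h
    apply hx
    rw [sub_eq_zero.mp h]
    exact Submodule.mem_sup_left (s.P_mem x)
  have hyn : 0 < ‖y‖ := norm_pos_iff.mpr hy0
  set ψ := ‖y‖⁻¹ • y with hψ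
  have hperp : ∀ i < s.n, inner ℝ (s.φ i) ψ = 0 := by
    intro i hi
    rw [hψ, real_inner_smul_right, hy, inner_sub_right, s.inner_P x hi, sub_self, mul_zero]
  have hψn : inner ℝ ψ ψ = 1 := by
    rw [real_inner_self_eq_norm_sq, hψ, norm_smul, norm_inv, norm_norm, inv_mul_cancel₀ hyn.ne']
    norm_num
  have hupd : ∀ i < s.n, Function.update s.φ s.n ψ i = s.φ i := by
    intro i hi
    rw [Function.update_of_ne (by omega)]
  have hspan : ∀ v ∈ Submodule.span ℝ (Function.update s.φ s.n ψ '' Set.Iio (s.n + 1)),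
      ∃ w ∈ s.V, ∃ c : ℝ, v = w + c • ψ := by
    intro v hv
    refine Submodule.span_induction ?_ ?_ ?_ ?_ hv
    · rintro _ ⟨i, hi, rfl⟩
      rcases Nat.lt_succ_iff_lt_or_eq.mp hi with h | h
      · exact ⟨s.φ i, s.φ_mem h, 0, by rw [hupd i h]; simp⟩
      · subst h
        exact ⟨0, Submodule.zero_mem _, 1, by simp⟩
    · exact ⟨0, Submodule.zero_mem _, 0, by simp⟩
    · rintro _ _ _ _ ⟨w, hw, c, rfl⟩ ⟨w', hw', c', rfl⟩
      exact ⟨w + w', Submodule.add_mem _ hw hw', c + c', by rw [add_smul]; abel⟩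
    · rintro a _ _ ⟨w, hw, c, rfl⟩
      exact ⟨a • w, Submodule.smul_mem _ _ hw, a * c, by rw [smul_add, mul_smul]⟩
  refine ⟨{ n := s.n + 1, φ := Function.update s.φ s.n ψ, orth := ?_, avoid := ?_ }, rfl, hupd,
    ?_, ?_⟩
  · intro i hi j hj
    rcases Nat.lt_succ_iff_lt_or_eq.mp hi with h | h
    · rcases Nat.lt_succ_iff_lt_or_eq.mp hj with h' | h'
      · rw [hupd i h, hupd j h', s.orth i h j h']
      · subst h'
        rw [hupd i h, Function.update_self, hperp i h, if_neg (by omega)]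
    · subst h
      rcases Nat.lt_succ_iff_lt_or_eq.mp hj with h' | h'
      · rw [hupd j h', Function.update_self, real_inner_comm, hperp j h', if_neg (by omega)]
      · subst h'
        rw [Function.update_self, hψn, if_pos rfl]
  · intro v hv hvb
    obtain ⟨w, hw, c, rfl⟩ := hspan v hv
    have hc : c = 0 := by
      by_contra hc
      apply hx
      have h1 : x = (‖y‖ * c⁻¹) • (w + c • ψ) + (s.P x - (‖y‖ * c⁻¹) • w) := by
        have h2 : (‖y‖ * c⁻¹) • (c • ψ) = y := by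
          rw [smul_smul, mul_assoc, inv_mul_cancel₀ hc, mul_one, hψ, smul_smul,
            mul_inv_cancel₀ hyn.ne', one_smul]
        rw [smul_add, h2, hy]
        abel
      rw [h1]
      exact Submodule.add_mem _ (Submodule.mem_sup_right (Submodule.smul_mem _ _ hvb))
        (Submodule.mem_sup_left (Submodule.sub_mem _ (s.P_mem x) (Submodule.smul_mem _ _ hw)))
    subst hc
    rw [zero_smul, add_zero] at hvb ⊢
    exact s.avoid w hw hvb
  · have h1 : x = s.P x + ‖y‖ • ψ := by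
      rw [hψ, smul_smul, mul_inv_cancel₀ hyn.ne', one_smul, hy]
      abel
    suffices hgoal : s.P x + ‖y‖ • ψ
        ∈ Submodule.span ℝ (Function.update s.φ s.n ψ '' Set.Iio (s.n + 1)) by
      rw [← h1] at hgoal
      exact hgoal
    refine Submodule.add_mem _ ?_ (Submodule.smul_mem _ _ ?_)
    · have hsub : s.V ≤ Submodule.span ℝ (Function.update s.φ s.n ψ '' Set.Iio (s.n + 1)) := by
        refine Submodule.span_le.mpr ?_
        rintro _ ⟨i, hi, rfl⟩
        rw [← hupd i hi]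
        exact Submodule.subset_span ⟨i, Nat.lt_succ_of_lt hi, rfl⟩
      exact hsub (s.P_mem x)
    · exact Submodule.subset_span ⟨s.n, Nat.lt_succ_self _, Function.update_self _ _ _⟩
  · exact Function.update_self _ _ _

/-- Adding one vector close to a given one. -/
lemma St.ext_near (s : St) (u : HI) (κ : ℝ) (hκ : 0 < κ) (hu : |‖u‖ - 1| ≤ κ)
    (hPu : ∑ i ∈ range s.n, |inner ℝ (s.φ i) u| ≤ κ) :
    ∃ s' : St, s'.n = s.n + 1 ∧ (∀ i < s.n, s'.φ i = s.φ i) ∧ ‖s'.φ s.n - u‖ ≤ 7 * κ := by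
  obtain ⟨x, hx1, hx2⟩ := exists_near s.V u κ hκ
  obtain ⟨s', h1, h2, _, h4⟩ := s.ext_one x hx2
  refine ⟨s', h1, h2, ?_⟩
  rw [h4]
  set y := x - s.P x with hy
  have hy0 : y ≠ 0 := by
    intro h
    apply hx2
    rw [sub_eq_zero.mp h]
    exact Submodule.mem_sup_left (s.P_mem x)
  have hyn : 0 < ‖y‖ := norm_pos_iff.mpr hy0
  have hPx : ‖s.P x‖ ≤ 2 * κ := by
    have h5 : s.P x = s.P u + s.P (x - u) := by rw [← s.P_add]; congr 1; abel
    rw [h5]
    refine (norm_add_le _ _).trans ?_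
    have h6 := (s.norm_P_le_sum u).trans hPu
    have h7 := (s.norm_P_le (x - u)).trans hx1
    linarith
  have hyu : ‖y - u‖ ≤ 3 * κ := by
    have h5 : y - u = (x - u) - s.P x := by rw [hy]; abel
    rw [h5]
    refine (norm_sub_le _ _).trans ?_
    linarith
  have hyn1 : |‖y‖ - 1| ≤ 4 * κ := by
    have h5 : |‖y‖ - ‖u‖| ≤ ‖y - u‖ := abs_norm_sub_norm_le y u
    have h6 : |‖y‖ - 1| ≤ |‖y‖ - ‖u‖| + |‖u‖ - 1| := abs_sub_le _ _ _
    linarith
  have hψy : ‖‖y‖⁻¹ • y - y‖ ≤ 4 * κ := by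
    have h5 : ‖y‖⁻¹ • y - y = (‖y‖⁻¹ - 1) • y := by rw [sub_smul, one_smul]
    rw [h5, norm_smul, Real.norm_eq_abs]
    have h6 : |‖y‖⁻¹ - 1| * ‖y‖ = |‖y‖ - 1| := by
      rw [← abs_of_pos hyn, ← abs_mul, abs_of_pos hyn, sub_mul, inv_mul_cancel₀ hyn.ne', one_mul,
        abs_sub_comm]
    rw [h6]
    exact hyn1
  have h5 : ‖y‖⁻¹ • y - u = (‖y‖⁻¹ • y - y) + (y - u) := by abel
  rw [h5]
  refine (norm_add_le _ _).trans ?_
  linarith

/-- Adding finitely many vectors close to given ones. -/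
lemma ext_block (R : ℕ) : ∀ δ > (0 : ℝ), ∃ κ > (0 : ℝ), ∀ (s : St) (u : ℕ → HI),
    (∀ i < R, ∀ j < R, |inner ℝ (u i) (u j) - (if i = j then (1 : ℝ) else 0)| ≤ κ) →
    (∀ i < R, ∑ r ∈ range s.n, |inner ℝ (s.φ r) (u i)| ≤ κ) →
    ∃ s' : St, s'.n = s.n + R ∧ (∀ i < s.n, s'.φ i = s.φ i) ∧
      ∀ i < R, ‖s'.φ (s.n + i) - u i‖ ≤ δ := by
  induction R with
  | zero =>
    intro δ _
    exact ⟨1, one_pos, fun s u _ _ => ⟨s, rfl, fun _ _ => rfl, fun i hi => absurd hi (by omega)⟩⟩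
  | succ R ih =>
    intro δ hδ
    have hR : (0 : ℝ) < R + 1 := by positivity
    set δ1 := δ / (28 * (R + 1)) with hδ1
    have hδ1pos : 0 < δ1 := by positivity
    obtain ⟨κ1, hκ1, H⟩ := ih δ1 hδ1pos
    set κ := min κ1 (min (δ / (14 * (R + 1))) 1) with hκ
    have hκpos : 0 < κ := lt_min hκ1 (lt_min (by positivity) one_pos)
    have hκ_1 : κ ≤ κ1 := min_le_left _ _
    have hκ_2 : κ ≤ δ / (14 * (R + 1)) := (min_le_right _ _).trans (min_le_left _ _)
    have hκ_3 : κ ≤ 1 := (min_le_right _ _).trans (min_le_right _ _)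
    refine ⟨κ, hκpos, fun s u hu hs => ?_⟩
    obtain ⟨s1, h1, h2, h3⟩ := H s u
      (fun i hi j hj => (hu i (by omega) j (by omega)).trans hκ_1)
      (fun i hi => (hs i (by omega)).trans hκ_1)
    have huR : |‖u R‖ ^ 2 - 1| ≤ κ := by
      have := hu R (by omega) R (by omega)
      rw [if_pos rfl, real_inner_self_eq_norm_sq] at this
      exact this
    have huR1 : |‖u R‖ - 1| ≤ κ := by
      have h4 : |‖u R‖ ^ 2 - 1| = |‖u R‖ - 1| * (‖u R‖ + 1) := by
        rw [show ‖u R‖ ^ 2 - 1 = (‖u R‖ - 1) * (‖u R‖ + 1) by ring, abs_mul,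
          abs_of_nonneg (by positivity : 0 ≤ ‖u R‖ + 1)]
      rw [h4] at huR
      nlinarith [norm_nonneg (u R), abs_nonneg (‖u R‖ - 1)]
    have huR2 : ‖u R‖ ≤ 2 := by
      have := abs_le.mp huR1
      linarith
    set κ' := (R + 1) * κ + 2 * R * δ1 with hκ'
    have hκ'pos : 0 < κ' := by positivity
    have hsum : ∑ r ∈ range s1.n, |inner ℝ (s1.φ r) (u R)| ≤ κ' := by
      rw [h1, sum_range_add]
      have e1 : ∑ r ∈ range s.n, |inner ℝ (s1.φ r) (u R)| ≤ κ := by
        rw [sum_congr rfl (fun r hr => by rw [h2 r (mem_range.mp hr)])]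
        exact hs R (by omega)
      have e2 : ∑ i ∈ range R, |inner ℝ (s1.φ (s.n + i)) (u R)|
          ≤ ∑ i ∈ range R, (κ + 2 * δ1) := by
        refine sum_le_sum (fun i hi => ?_)
        have hi' := mem_range.mp hi
        have h5 : inner ℝ (s1.φ (s.n + i)) (u R)
            = inner ℝ (s1.φ (s.n + i) - u i) (u R) + inner ℝ (u i) (u R) := by
          rw [← inner_add_left]
          congr 1
          abel
        rw [h5]
        refine (abs_add_le _ _).trans ?_
        have h6 := hu i (by omega) R (by omega)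
        rw [if_neg (by omega), sub_zero] at h6
        have h7 : |inner ℝ (s1.φ (s.n + i) - u i) (u R)| ≤ δ1 * 2 :=
          (abs_real_inner_le_norm _ _).trans
            (mul_le_mul (h3 i hi') huR2 (norm_nonneg _) hδ1pos.le)
        linarith
      rw [sum_const, card_range, nsmul_eq_mul] at e2
      rw [hκ']
      linarith
    have hle : κ ≤ κ' := by
      rw [hκ']
      have : 0 ≤ (R : ℝ) * κ := by positivity
      have : 0 ≤ 2 * R * δ1 := by positivity
      linarith
    obtain ⟨s', g1, g2, g3⟩ := s1.ext_near (u R) κ' hκ'pos (huR1.trans hle) hsum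
    refine ⟨s', by rw [g1, h1]; ring, ?_, ?_⟩
    · intro i hi
      rw [g2 i (by omega), h2 i hi]
    · intro i hi
      rcases Nat.lt_succ_iff_lt_or_eq.mp hi with h | h
      · rw [g2 _ (by omega)]
        refine (h3 i h).trans ?_
        rw [hδ1]
        refine div_le_self hδ.le ?_
        have : (0 : ℝ) ≤ R := by positivity
        linarith
      · subst h
        rw [← h1]
        refine g3.trans ?_
        have e1 : (i + 1 : ℝ) * κ ≤ δ / 14 := by
          calc (i + 1 : ℝ) * κ ≤ (i + 1) * (δ / (14 * (i + 1))) :=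
                mul_le_mul_of_nonneg_left hκ_2 hR.le
            _ = δ / 14 := by field_simp
        have e2 : 2 * (i : ℝ) * δ1 ≤ δ / 14 := by
          rw [hδ1]
          calc 2 * (i : ℝ) * (δ / (28 * (i + 1))) ≤ 2 * (i + 1 : ℝ) * (δ / (28 * (i + 1))) := by
                refine mul_le_mul_of_nonneg_right ?_ (by positivity)
                linarith
            _ = δ / 14 := by field_simp; norm_num
        rw [hκ']
        linarith

end Pool.Agent.H7R2
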