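import Mathlib
import Pool.Agent.H7R2.OnsD

/-!
The block lemma and the separation lemma.
-/

set_option autoImplicit false

namespace Pool.Agent.H7R2

open Finset MeasureTheory

instance fact_two_ne_top : Fact ((2 : ENNReal) ≠ ⊤) := ⟨by norm_num⟩

/-- Chebyshev -/
lemma cheb (E : HI) (L : ℝ) (hL : 0 < L) :
    μI {t | L ≤ |E t|} ≤ ENNReal.ofReal (‖E‖ ^ 2 / L ^ 2) := by
  have h1 : Integrable (fun t => E t * E t) μI := by
    refine (L2.integrable_inner (𝕜 := ℝ) E E).congr ?_
    filter_upwards with t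
    simp [sq]
  have h2 := mul_meas_ge_le_integral_of_nonneg (μ := μI) (f := fun t => E t * E t)
    (Filter.Eventually.of_forall (fun t => mul_self_nonneg (E t))) h1 (L ^ 2)
  have h3 : ∫ t, E t * E t ∂μI = ‖E‖ ^ 2 := by
    rw [← inner_eq_int, real_inner_self_eq_norm_sq]
  have h4 : {t | L ^ 2 ≤ E t * E t} = {t | L ≤ |E t|} := by
    ext t
    simp only [Set.mem_ofPred_eq]
    rw [← sq, ← sq_abs (E t)]
    exact pow_le_pow_iff_left₀ hL.le (abs_nonneg _) (by norm_num)
  rw [h3, h4] at h2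
  rw [← ENNReal.ofReal_toReal (measure_ne_top μI {t | L ≤ |E t|})]
  refine ENNReal.ofReal_le_ofReal ?_
  rw [le_div_iff₀ (by positivity), mul_comm]
  exact h2

/-- The block lemma. -/
theorem block_step (s : St) (g : HI) (hg : ‖g‖ = 1) (hgs : ∀ r < s.n, inner ℝ (s.φ r) g = 0)
    (Λ ε η M : ℝ) (hΛ : 0 < Λ) (hε : 0 < ε) (hη : 0 < η) (hM : 0 < M) :
    ∃ s' : St, s.n ≤ s'.n ∧ (∀ i < s.n, s'.φ i = s.φ i) ∧
      ∀ f : HI, ‖f‖ ≤ Λ → ε ≤ |inner ℝ g f| →
        μI {t | ∀ N ≤ s'.n - s.n,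
          |∑ i ∈ range N, inner ℝ (s'.φ (s.n + i)) f * s'.φ (s.n + i) t| < M}
          ≤ ENNReal.ofReal η := by
  classical
  -- the level of the error
  obtain ⟨L, hL0, hL⟩ : ∃ L : ℝ, 0 < L ∧ (3 * Λ) ^ 2 / L ^ 2 ≤ η / 2 := by
    refine ⟨Real.sqrt (2 * (3 * Λ) ^ 2 / η), Real.sqrt_pos.mpr (by positivity), ?_⟩
    rw [Real.sq_sqrt (by positivity)]
    apply le_of_eq
    field_simp
  obtain ⟨bl⟩ := exists_block Λ (ε / 2) (η / 2) (M + L) hΛ (by linarith) (by linarith)
    (by linarith)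
  set Ω := bl.Ω
  set R := bl.R with hR
  set b := bl.b with hb
  have hqpos : (0 : ℝ) < Fintype.card Ω := by exact_mod_cast (card_pos' : 0 < Fintype.card Ω)
  have hR1 : (0 : ℝ) < R + 1 := by positivity
  set δ := min (1 / ((R : ℝ) + 1)) (ε / (2 * (R + 1) * Λ)) with hδ
  have hδpos : 0 < δ := lt_min (by positivity) (by positivity)
  have hδ1 : (R : ℝ) * δ ≤ 1 := by
    calc (R : ℝ) * δ ≤ (R + 1) * (1 / (R + 1)) :=
          mul_le_mul (by linarith) (min_le_left _ _) hδpos.le hR1.le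
      _ = 1 := by field_simp
  have hδ2 : (R : ℝ) * δ * Λ ≤ ε / 2 := by
    calc (R : ℝ) * δ * Λ ≤ (R + 1) * (ε / (2 * (R + 1) * Λ)) * Λ := by
          refine mul_le_mul_of_nonneg_right ?_ hΛ.le
          exact mul_le_mul (by linarith) (min_le_right _ _) hδpos.le hR1.le
      _ = ε / 2 := by field_simp
  obtain ⟨κ, hκ, hext⟩ := ext_block R δ hδpos
  set κ0 := κ / ((2 * R + 2) * (s.n + 1)) with hκ0
  have hκ0pos : 0 < κ0 := by positivity
  have hb1 : ∀ i < R, |b i| ≤ 1 := by
    intro i hi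
    have h1 : b i ^ 2 ≤ 1 := by
      rw [← bl.b_sq]
      exact single_le_sum (f := fun i => bl.b i ^ 2) (fun i _ => sq_nonneg _) (mem_range.mpr hi)
    exact (sq_le_one_iff_abs_le_one _).mp h1
  -- choice of the scale
  have hev : ∀ᶠ j in Filter.atTop, ∀ i ∈ range R,
      (|inner ℝ (TH j (bl.x i)) g| ≤ κ0 ∧ ∀ r ∈ range s.n, |inner ℝ (TH j (bl.x i)) (s.φ r)| ≤ κ0) := by
    rw [Filter.eventually_all_finset]
    intro i hi
    have hi' := mem_range.mp hi
    have hnorm : ∑ ω, bl.x i ω * bl.x i ω = Fintype.card Ω := by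
      have := bl.orth i hi' i hi'
      rw [if_pos rfl] at this
      exact this
    have hw : ∀ e : HI, ∀ᶠ j in Filter.atTop, |inner ℝ (TH j (bl.x i)) e| ≤ κ0 := by
      intro e
      have h1 := TH_weak (bl.x i) (bl.mean i hi') hnorm e
      have h2 := h1.abs
      rw [abs_zero] at h2
      exact (h2.eventually (gt_mem_nhds hκ0pos)).mono (fun j hj => hj.le)
    refine (hw g).and ?_
    rw [Filter.eventually_all_finset]
    intro r _
    exact hw (s.φ r)
  obtain ⟨j, hj⟩ := hev.exists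
  set X : ℕ → HI := fun i => TH j (bl.x i) with hX
  have hXX : ∀ i < R, ∀ l < R, inner ℝ (X i) (X l) = if i = l then (1 : ℝ) else 0 := by
    intro i hi l hl
    rw [hX]
    simp only
    rw [inner_TH_same, bl.orth i hi l hl]
    split_ifs
    · exact div_self hqpos.ne'
    · exact zero_div _
  set h0 : HI := ∑ i ∈ range R, b i • X i with hh0
  have hXh : ∀ i < R, inner ℝ (X i) h0 = b i := by
    intro i hi
    rw [hh0, inner_sum, sum_eq_single i]
    · rw [real_inner_smul_right, hXX i hi i hi, if_pos rfl, mul_one]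
    · intro l hl hli
      rw [real_inner_smul_right, hXX i hi l (mem_range.mp hl), if_neg (Ne.symm hli), mul_zero]
    · intro h
      exact absurd (mem_range.mpr hi) h
  have hin : ∀ e : HI, inner ℝ h0 e = ∑ i ∈ range R, b i * inner ℝ (X i) e := by
    intro e
    rw [hh0, sum_inner]
    exact sum_congr rfl (fun i _ => real_inner_smul_left _ _ _)
  have hhh : inner ℝ h0 h0 = 1 := by
    rw [hin, ← bl.b_sq]
    refine sum_congr rfl (fun i hi => ?_)
    rw [hXh i (mem_range.mp hi), sq]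
  have hhn : ‖h0‖ = 1 := by
    rw [real_inner_self_eq_norm_sq] at hhh
    nlinarith [norm_nonneg h0]
  have hXg : ∀ i < R, |inner ℝ (X i) g| ≤ κ0 := fun i hi => (hj i (mem_range.mpr hi)).1
  have hXφ : ∀ i < R, ∀ r < s.n, |inner ℝ (X i) (s.φ r)| ≤ κ0 :=
    fun i hi r hr => (hj i (mem_range.mpr hi)).2 r (mem_range.mpr hr)
  have hsmall : ∀ e : HI, (∀ i < R, |inner ℝ (X i) e| ≤ κ0) → |inner ℝ h0 e| ≤ R * κ0 := by
    intro e he
    rw [hin]
    refine (abs_sum_le_sum_abs _ _).trans ?_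
    have : ∑ i ∈ range R, |b i * inner ℝ (X i) e| ≤ ∑ i ∈ range R, κ0 := by
      refine sum_le_sum (fun i hi => ?_)
      rw [abs_mul]
      calc |b i| * |inner ℝ (X i) e| ≤ 1 * κ0 :=
            mul_le_mul (hb1 i (mem_range.mp hi)) (he i (mem_range.mp hi)) (abs_nonneg _) zero_le_one
        _ = κ0 := one_mul _
    rwa [sum_const, card_range, nsmul_eq_mul] at this
  have hhg : |inner ℝ h0 g| ≤ R * κ0 := hsmall g hXg
  set u : ℕ → HI := fun i => X i - b i • (h0 - g) with hu
  have hκle : (2 * (R : ℝ) + 2) * κ0 ≤ κ := by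
    rw [hκ0]
    have hn1 : (1 : ℝ) ≤ s.n + 1 := by
      have : (0 : ℝ) ≤ s.n := Nat.cast_nonneg _
      linarith
    calc (2 * (R : ℝ) + 2) * (κ / ((2 * R + 2) * (s.n + 1))) = κ / (s.n + 1) := by field_simp
      _ ≤ κ := div_le_self hκ.le hn1
  have hugram : ∀ i < R, ∀ l < R, |inner ℝ (u i) (u l) - (if i = l then (1 : ℝ) else 0)| ≤ κ := by
    intro i hi l hl
    have hgg : inner ℝ g g = (1 : ℝ) := by rw [real_inner_self_eq_norm_sq, hg]; norm_num
    have e1 : inner ℝ (u i) (u l) - (if i = l then (1 : ℝ) else 0)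
        = b l * inner ℝ (X i) g + b i * inner ℝ (X l) g - 2 * (b i * b l) * inner ℝ h0 g := by
      rw [hu]
      simp only [inner_sub_left, inner_sub_right, real_inner_smul_left, real_inner_smul_right]
      rw [hXX i hi l hl, hXh i hi, real_inner_comm (X l) h0, hXh l hl, hhh, hgg,
        real_inner_comm h0 g, real_inner_comm (X l) g]
      ring
    rw [e1]
    have a1 : |b l * inner ℝ (X i) g| ≤ κ0 := by
      rw [abs_mul]
      calc |b l| * |inner ℝ (X i) g| ≤ 1 * κ0 :=
            mul_le_mul (hb1 l hl) (hXg i hi) (abs_nonneg _) zero_le_one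
        _ = κ0 := one_mul _
    have a2 : |b i * inner ℝ (X l) g| ≤ κ0 := by
      rw [abs_mul]
      calc |b i| * |inner ℝ (X l) g| ≤ 1 * κ0 :=
            mul_le_mul (hb1 i hi) (hXg l hl) (abs_nonneg _) zero_le_one
        _ = κ0 := one_mul _
    have a3 : |2 * (b i * b l) * inner ℝ h0 g| ≤ 2 * (R * κ0) := by
      rw [abs_mul, abs_mul, abs_mul, abs_two]
      have : |b i| * |b l| ≤ 1 := by
        calc |b i| * |b l| ≤ 1 * 1 :=
              mul_le_mul (hb1 i hi) (hb1 l hl) (abs_nonneg _) zero_le_one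
          _ = 1 := one_mul _
      calc 2 * (|b i| * |b l|) * |inner ℝ h0 g| ≤ 2 * 1 * (R * κ0) := by
            refine mul_le_mul ?_ hhg (abs_nonneg _) (by norm_num)
            linarith
        _ = 2 * (R * κ0) := by ring
    have a4 := abs_le.mp a1
    have a5 := abs_le.mp a2
    have a6 := abs_le.mp a3
    rw [abs_le]
    constructor <;> nlinarith
  have huφ : ∀ i < R, ∑ r ∈ range s.n, |inner ℝ (s.φ r) (u i)| ≤ κ := by
    intro i hi
    have h1 : ∀ r ∈ range s.n, |inner ℝ (s.φ r) (u i)| ≤ (R + 1) * κ0 := by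
      intro r hr
      have hr' := mem_range.mp hr
      have e1 : inner ℝ (s.φ r) (u i) = inner ℝ (X i) (s.φ r) - b i * inner ℝ h0 (s.φ r) := by
        rw [hu]
        simp only [inner_sub_right, real_inner_smul_right]
        rw [hgs r hr', real_inner_comm (X i), real_inner_comm h0]
        ring
      rw [e1]
      refine (abs_sub _ _).trans ?_
      have a1 := hXφ i hi r hr'
      have a2 : |b i * inner ℝ h0 (s.φ r)| ≤ R * κ0 := by
        rw [abs_mul]
        calc |b i| * |inner ℝ h0 (s.φ r)| ≤ 1 * (R * κ0) :=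
              mul_le_mul (hb1 i hi) (hsmall _ (fun i hi => hXφ i hi r hr')) (abs_nonneg _)
                zero_le_one
          _ = R * κ0 := one_mul _
      linarith
    refine (sum_le_sum h1).trans ?_
    rw [sum_const, card_range, nsmul_eq_mul, hκ0]
    calc (s.n : ℝ) * ((R + 1) * (κ / ((2 * R + 2) * (s.n + 1))))
        ≤ (s.n + 1 : ℝ) * ((R + 1) * (κ / ((2 * R + 2) * (s.n + 1)))) := by
          refine mul_le_mul_of_nonneg_right (by linarith) (by positivity)
      _ = κ / 2 := by field_simp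
      _ ≤ κ := by linarith
  obtain ⟨s', h1, h2, h3⟩ := hext s u hugram huφ
  refine ⟨s', by omega, h2, fun f hf hfg => ?_⟩
  have hsub : s'.n - s.n = R := by omega
  rw [hsub]
  set ψ : ℕ → HI := fun i => s'.φ (s.n + i) with hψ
  set a : ℕ → ℝ := fun i => inner ℝ (ψ i) f with ha
  have hψo : ∀ i < R, ∀ l < R, inner ℝ (ψ i) (ψ l) = if i = l then (1 : ℝ) else 0 := by
    intro i hi l hl
    rw [hψ]
    simp only
    rw [s'.orth (s.n + i) (by omega) (s.n + l) (by omega)]
    by_cases h : i = l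
    · rw [if_pos h, if_pos (by omega)]
    · rw [if_neg h, if_neg (by omega)]
  have hbessel : ∑ i ∈ range R, a i ^ 2 ≤ Λ ^ 2 := by
    have ho : Orthonormal ℝ (fun i : Fin R => ψ i) := by
      rw [orthonormal_iff_ite]
      intro i l
      rw [hψo i i.2 l l.2]
      by_cases h : i = l
      · rw [if_pos h, if_pos (by rw [h])]
      · rw [if_neg h, if_neg (fun h' => h (Fin.ext h'))]
    have h4 := ho.sum_inner_products_le f (s := univ)
    rw [← Fin.sum_univ_eq_sum_range (fun i => a i ^ 2) R]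
    refine le_trans (le_of_eq ?_) (h4.trans (pow_le_pow_left₀ (norm_nonneg _) hf 2))
    refine sum_congr rfl (fun i _ => ?_)
    rw [Real.norm_eq_abs, sq_abs]
  have hab : ε / 2 ≤ |∑ i ∈ range R, a i * b i| := by
    have e1 : ∑ i ∈ range R, b i • u i = g := by
      rw [hu]
      simp only [smul_sub, sum_sub_distrib, smul_smul]
      rw [← hh0]
      have e2 : ∑ i ∈ range R, (b i * b i) • h0 = h0 := by
        rw [← sum_smul]
        have : ∑ i ∈ range R, b i * b i = 1 := by
          rw [← bl.b_sq]; exact sum_congr rfl (fun i _ => (sq _).symm)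
        rw [this, one_smul]
      have e3 : ∑ i ∈ range R, (b i * b i) • g = g := by
        rw [← sum_smul]
        have : ∑ i ∈ range R, b i * b i = 1 := by
          rw [← bl.b_sq]; exact sum_congr rfl (fun i _ => (sq _).symm)
        rw [this, one_smul]
      rw [e2, e3]
      abel
    have e2 : ∑ i ∈ range R, a i * b i
        = inner ℝ g f + inner ℝ (∑ i ∈ range R, b i • (ψ i - u i)) f := by
      have e3 : ∑ i ∈ range R, b i • (ψ i - u i) = ∑ i ∈ range R, b i • ψ i - g := by
        simp only [smul_sub, sum_sub_distrib]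
        rw [e1]
      rw [e3, inner_sub_left, sum_inner]
      simp only [real_inner_smul_left]
      rw [add_sub_cancel]
      exact sum_congr rfl (fun i _ => mul_comm _ _)
    have e4 : |inner ℝ (∑ i ∈ range R, b i • (ψ i - u i)) f| ≤ ε / 2 := by
      refine (abs_real_inner_le_norm _ _).trans ?_
      have e5 : ‖∑ i ∈ range R, b i • (ψ i - u i)‖ ≤ R * δ := by
        refine (norm_sum_le _ _).trans ?_
        have : ∑ i ∈ range R, ‖b i • (ψ i - u i)‖ ≤ ∑ i ∈ range R, δ := by
          refine sum_le_sum (fun i hi => ?_)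
          rw [norm_smul, Real.norm_eq_abs]
          calc |b i| * ‖ψ i - u i‖ ≤ 1 * δ :=
                mul_le_mul (hb1 i (mem_range.mp hi)) (h3 i (mem_range.mp hi)) (norm_nonneg _)
                  zero_le_one
            _ = δ := one_mul _
        rwa [sum_const, card_range, nsmul_eq_mul] at this
      calc ‖∑ i ∈ range R, b i • (ψ i - u i)‖ * ‖f‖ ≤ (R * δ) * Λ :=
            mul_le_mul e5 hf (norm_nonneg _) (by positivity)
        _ ≤ ε / 2 := hδ2
    rw [e2]
    have e6 := abs_sub_abs_le_abs_sub (inner ℝ g f : ℝ)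
      (-(inner ℝ (∑ i ∈ range R, b i • (ψ i - u i)) f))
    rw [abs_neg, sub_neg_eq_add] at e6
    linarith
  -- the error function
  set E : HI := Λ • (|h0 - g| + ∑ i ∈ range R, |ψ i - u i|) with hE
  have hEn : ‖E‖ ≤ 3 * Λ := by
    rw [hE, norm_smul, Real.norm_of_nonneg hΛ.le, mul_comm 3 Λ]
    refine mul_le_mul_of_nonneg_left ?_ hΛ.le
    refine (norm_add_le _ _).trans ?_
    have e1 : ‖|h0 - g|‖ ≤ 2 := by
      rw [norm_abs_eq_norm]
      refine (norm_sub_le _ _).trans ?_
      rw [hhn, hg]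
      norm_num
    have e2 : ‖∑ i ∈ range R, |ψ i - u i|‖ ≤ R * δ := by
      refine (norm_sum_le _ _).trans ?_
      have : ∑ i ∈ range R, ‖|ψ i - u i|‖ ≤ ∑ i ∈ range R, δ := by
        refine sum_le_sum (fun i hi => ?_)
        rw [norm_abs_eq_norm]
        exact h3 i (mem_range.mp hi)
      rwa [sum_const, card_range, nsmul_eq_mul] at this
    linarith
  have hai : ∀ i < R, |a i| ≤ Λ := by
    intro i hi
    have h4 : a i ^ 2 ≤ Λ ^ 2 :=
      (single_le_sum (f := fun i => a i ^ 2) (fun i _ => sq_nonneg _) (mem_range.mpr hi)).trans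
        hbessel
    exact abs_le_of_sq_le_sq h4 hΛ.le |> fun h => h
  have hpart : ∀ N ≤ R, |∑ i ∈ range N, a i * b i| ≤ Λ := by
    intro N hN
    have hsub2 : range N ⊆ range R := range_subset_range.mpr hN
    have h4 := sum_mul_sq_le_sq_mul_sq (range N) a b
    have h5 : ∑ i ∈ range N, a i ^ 2 ≤ Λ ^ 2 :=
      (sum_le_sum_of_subset_of_nonneg hsub2 (fun i _ _ => sq_nonneg _)).trans hbessel
    have h6 : ∑ i ∈ range N, b i ^ 2 ≤ 1 := by
      rw [← bl.b_sq]
      exact sum_le_sum_of_subset_of_nonneg hsub2 (fun i _ _ => sq_nonneg _)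
    have h7 : (∑ i ∈ range N, a i * b i) ^ 2 ≤ Λ ^ 2 := by
      refine h4.trans ?_
      calc (∑ i ∈ range N, a i ^ 2) * ∑ i ∈ range N, b i ^ 2 ≤ Λ ^ 2 * 1 :=
            mul_le_mul h5 h6 (sum_nonneg (fun i _ => sq_nonneg _)) (sq_nonneg _)
        _ = Λ ^ 2 := mul_one _
    exact abs_le_of_sq_le_sq h7 hΛ.le
  -- the pointwise comparison
  have hpt : ∀ᵐ t ∂μI, ∀ N ≤ R, |∑ i ∈ range N, a i * bl.x i (DM Ω j t)|
      ≤ |∑ i ∈ range N, a i * ψ i t| + |E t| := by
    have g1 : ∀ᵐ t ∂μI, ∀ i ∈ range R, ψ i t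
        = bl.x i (DM Ω j t) - b i * (h0 - g : HI) t + (ψ i - u i : HI) t := by
      rw [Filter.eventually_all_finset]
      intro i hi
      have e1 : ψ i = (X i - b i • (h0 - g)) + (ψ i - u i) := by
        rw [hu]; simp only; abel
      have e2 : (ψ i : ℝ → ℝ) =ᵐ[μI] ((X i - b i • (h0 - g)) + (ψ i - u i) : HI) := by
        rw [← e1]
      filter_upwards [e2, Lp.coeFn_add (X i - b i • (h0 - g)) (ψ i - u i),
        Lp.coeFn_sub (X i) (b i • (h0 - g)), Lp.coeFn_smul (b i) (h0 - g),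
        TH_coe j (bl.x i)] with t f1 f2 f3 f4 f5
      rw [f1, f2, Pi.add_apply, f3, Pi.sub_apply, f4, Pi.smul_apply, smul_eq_mul]
      congr 2
    have g2 : ∀ᵐ t ∂μI, E t = Λ * (|(h0 - g : HI) t| + ∑ i ∈ range R, |(ψ i - u i : HI) t|) := by
      have g3 : ∀ᵐ t ∂μI, ∀ i ∈ range R, (|ψ i - u i| : HI) t = |(ψ i - u i : HI) t| := by
        rw [Filter.eventually_all_finset]
        intro i _
        exact Lp.coeFn_abs _
      filter_upwards [Lp.coeFn_smul Λ (|h0 - g| + ∑ i ∈ range R, |ψ i - u i|),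
        Lp.coeFn_add (|h0 - g|) (∑ i ∈ range R, |ψ i - u i|),
        Lp.coeFn_finsetSum (range R) (fun i => |ψ i - u i|), Lp.coeFn_abs (h0 - g), g3]
        with t f1 f2 f3 f4 f5
      rw [hE, f1, Pi.smul_apply, f2, Pi.add_apply, f3, f4, smul_eq_mul, Finset.sum_apply]
      congr 2
      exact sum_congr rfl (fun i hi => f5 i hi)
    filter_upwards [g1, g2] with t f1 f2 N hN
    have hlt : ∀ i ∈ range N, i ∈ range R := fun i hi =>
      mem_range.mpr (lt_of_lt_of_le (mem_range.mp hi) hN)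
    have e1 : ∑ i ∈ range N, a i * bl.x i (DM Ω j t)
        = ∑ i ∈ range N, a i * ψ i t + (∑ i ∈ range N, a i * b i) * (h0 - g : HI) t
          - ∑ i ∈ range N, a i * (ψ i - u i : HI) t := by
      rw [sum_mul, ← sum_add_distrib, ← sum_sub_distrib]
      refine sum_congr rfl (fun i hi => ?_)
      rw [f1 i (hlt i hi)]
      ring
    rw [e1, f2]
    refine (abs_sub _ _).trans ?_
    have e2 : |∑ i ∈ range N, a i * ψ i t + (∑ i ∈ range N, a i * b i) * (h0 - g : HI) t|
        ≤ |∑ i ∈ range N, a i * ψ i t| + Λ * |(h0 - g : HI) t| := by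
      refine (abs_add_le _ _).trans ?_
      rw [abs_mul]
      have := mul_le_mul_of_nonneg_right (hpart N hN) (abs_nonneg ((h0 - g : HI) t))
      linarith
    have e3 : |∑ i ∈ range N, a i * (ψ i - u i : HI) t|
        ≤ Λ * ∑ i ∈ range R, |(ψ i - u i : HI) t| := by
      refine (abs_sum_le_sum_abs _ _).trans ?_
      rw [mul_sum]
      refine le_trans (sum_le_sum (fun i hi => ?_))
        (sum_le_sum_of_subset_of_nonneg (fun i hi => hlt i hi) (fun i _ _ => by positivity))
      rw [abs_mul]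
      exact mul_le_mul_of_nonneg_right (hai i (mem_range.mp (hlt i hi))) (abs_nonneg _)
    have e4 : 0 ≤ Λ * (|(h0 - g : HI) t| + ∑ i ∈ range R, |(ψ i - u i : HI) t|) := by
      positivity
    rw [abs_of_nonneg e4]
    linarith
  -- the bad set
  set B : Finset Ω := univ.filter (fun ω => ∀ N ≤ R, |∑ i ∈ range N, a i * bl.x i ω| < M + L)
    with hB
  have hBcard : (B.card : ℝ) ≤ η / 2 * Fintype.card Ω :=
    bl.bad a hbessel hab B (fun ω hω => (mem_filter.mp hω).2)
  have hcover : μI {t | ∀ N ≤ R, |∑ i ∈ range N, a i * ψ i t| < M}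
      ≤ μI ({t | DM Ω j t ∈ B} ∪ {t | L ≤ |E t|}) := by
    refine measure_mono_ae ?_
    filter_upwards [hpt] with t ht hbad
    by_cases hE2 : L ≤ |E t|
    · exact Or.inr hE2
    · left
      refine mem_filter.mpr ⟨mem_univ _, fun N hN => ?_⟩
      have h4 := ht N hN
      have h5 : |∑ i ∈ range N, a i * ψ i t| < M := hbad N hN
      have h6 := not_le.mp hE2
      linarith
  refine hcover.trans ((measure_union_le _ _).trans ?_)
  rw [measure_DM]
  have h8 : ENNReal.ofReal (B.card / Fintype.card Ω) ≤ ENNReal.ofReal (η / 2) := by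
    refine ENNReal.ofReal_le_ofReal ?_
    rw [div_le_iff₀ hqpos]
    exact hBcard
  have h9 : μI {t | L ≤ |E t|} ≤ ENNReal.ofReal (η / 2) := by
    refine (cheb E L hL0).trans (ENNReal.ofReal_le_ofReal (le_trans ?_ hL))
    exact div_le_div_of_nonneg_right (pow_le_pow_left₀ (norm_nonneg _) hEn 2) (by positivity)
  refine (add_le_add h8 h9).trans ?_
  rw [← ENNReal.ofReal_add (by linarith) (by linarith)]
  exact ENNReal.ofReal_le_ofReal (by linarith)

/-- The class of test functions. -/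
def KK (k c : ℝ) (h : HI) : Set HI := {f | (∀ᵐ t ∂μI, |f t| ≤ k) ∧ c ≤ inner ℝ h f}

lemma norm_le_of_bdd {f : HI} {k : ℝ} (hk : 0 ≤ k) (hf : ∀ᵐ t ∂μI, |f t| ≤ k) : ‖f‖ ≤ k := by
  have h1 := Lp.norm_le_of_ae_bound (p := 2) (μ := μI) (f := f) hk (by
    filter_upwards [hf] with t ht
    rwa [Real.norm_eq_abs])
  refine h1.trans (le_of_eq ?_)
  have : (measureUnivNNReal μI : ℝ) = 1 := by
    simp [measureUnivNNReal]
  rw [this, Real.one_rpow, one_mul]

lemma KK_bdd_iff (k : ℝ) (f : HI) :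
    (∀ᵐ t ∂μI, |f t| ≤ k) ↔ f ∈ Set.Icc (-((memLp_const k).toLp _ : HI)) ((memLp_const k).toLp _) := by
  rw [Set.mem_Icc, ← Lp.coeFn_le, ← Lp.coeFn_le]
  constructor
  · intro h
    constructor
    · filter_upwards [h, Lp.coeFn_neg ((memLp_const k).toLp _ : HI),
        MemLp.coeFn_toLp (memLp_const k : MemLp (fun _ : ℝ => k) 2 μI)] with t h1 h2 h3
      rw [h2, Pi.neg_apply, h3]
      exact (abs_le.mp h1).1
    · filter_upwards [h, MemLp.coeFn_toLp (memLp_const k : MemLp (fun _ : ℝ => k) 2 μI)]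
        with t h1 h3
      rw [h3]
      exact (abs_le.mp h1).2
  · rintro ⟨h1, h2⟩
    filter_upwards [h1, h2, Lp.coeFn_neg ((memLp_const k).toLp _ : HI),
      MemLp.coeFn_toLp (memLp_const k : MemLp (fun _ : ℝ => k) 2 μI)] with t g1 g2 g3 g4
    rw [g3, Pi.neg_apply, g4] at g1
    rw [g4] at g2
    exact abs_le.mpr ⟨g1, g2⟩

lemma KK_closed (k c : ℝ) (h : HI) : IsClosed (KK k c h) := by
  have h1 : KK k c h = Set.Icc (-((memLp_const k).toLp _ : HI)) ((memLp_const k).toLp _)
      ∩ {f | c ≤ inner ℝ h f} := by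
    ext f
    exact and_congr (KK_bdd_iff k f) Iff.rfl
  rw [h1]
  exact isClosed_Icc.inter (isClosed_le continuous_const (continuous_const.inner continuous_id))

lemma KK_convex (k c : ℝ) (h : HI) : Convex ℝ (KK k c h) := by
  intro f hf g hg a b ha hb hab
  refine ⟨?_, ?_⟩
  · filter_upwards [hf.1, hg.1, Lp.coeFn_add (a • f) (b • g), Lp.coeFn_smul a f,
      Lp.coeFn_smul b g] with t h1 h2 h3 h4 h5
    rw [h3, Pi.add_apply, h4, h5, Pi.smul_apply, Pi.smul_apply, smul_eq_mul, smul_eq_mul]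
    refine (abs_add_le _ _).trans ?_
    rw [abs_mul, abs_mul, abs_of_nonneg ha, abs_of_nonneg hb]
    calc a * |f t| + b * |g t| ≤ a * k + b * k :=
          add_le_add (mul_le_mul_of_nonneg_left h1 ha) (mul_le_mul_of_nonneg_left h2 hb)
      _ = k := by rw [← add_mul, hab, one_mul]
  · have h1 := hf.2
    have h2 := hg.2
    show c ≤ inner ℝ h (a • f + b • g)
    rw [inner_add_right, real_inner_smul_right, real_inner_smul_right]
    calc c = a * c + b * c := by rw [← add_mul, hab, one_mul]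
      _ ≤ _ := add_le_add (mul_le_mul_of_nonneg_left h1 ha) (mul_le_mul_of_nonneg_left h2 hb)

/-- separation of the test functions from the span -/
theorem separate (s : St) (h : HI) (k c : ℝ) (hk : 0 ≤ k) (hc : 0 < c)
    (hne : (KK k c h).Nonempty) :
    ∃ g : HI, ‖g‖ = 1 ∧ (∀ r < s.n, inner ℝ (s.φ r) g = 0) ∧
      ∃ ε > (0 : ℝ), ∀ f ∈ KK k c h, ε ≤ inner ℝ g f := by
  set Q : HI → HI := fun w => w - s.P w with hQ
  have hPlin : ∀ (a b : ℝ) (f g : HI), s.P (a • f + b • g) = a • s.P f + b • s.P g := by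
    intro a b f g
    simp only [St.P, inner_add_right, real_inner_smul_right, add_smul, sum_add_distrib, smul_sum,
      smul_smul]
  have hQφ : ∀ w, ∀ r < s.n, inner ℝ (s.φ r) (Q w) = 0 := by
    intro w r hr
    rw [hQ]
    simp only [inner_sub_right]
    rw [s.inner_P w hr, sub_self]
  set S : Set HI := closure (Q '' KK k c h) with hS
  have hSconv : Convex ℝ S := by
    refine Convex.closure ?_
    rintro _ ⟨f, hf, rfl⟩ _ ⟨g, hg, rfl⟩ a b ha hb hab
    refine ⟨a • f + b • g, KK_convex k c h hf hg ha hb hab, ?_⟩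
    rw [hQ]
    simp only
    rw [hPlin, smul_sub, smul_sub]
    abel
  have hSne : S.Nonempty := (hne.image Q).closure
  obtain ⟨v, hvS, hv⟩ := exists_norm_eq_iInf_of_complete_convex hSne
    (isClosed_closure.isComplete) hSconv 0
  rw [norm_eq_iInf_iff_real_inner_le_zero hSconv hvS] at hv
  have hvφ : ∀ r < s.n, inner ℝ (s.φ r) v = 0 := by
    intro r hr
    have hcl : IsClosed {w : HI | inner ℝ (s.φ r) w = 0} :=
      isClosed_eq (continuous_const.inner continuous_id) continuous_const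
    have hsub : S ⊆ {w : HI | inner ℝ (s.φ r) w = 0} := by
      refine closure_minimal ?_ hcl
      rintro _ ⟨f, _, rfl⟩
      exact hQφ f r hr
    exact hsub hvS
  have hv0 : v ≠ 0 := by
    intro hv0
    rw [hv0] at hvS
    obtain ⟨y, hy, hylim⟩ := mem_closure_iff_seq_limit.mp hvS
    choose f hf hfy using hy
    have : ProperSpace s.V := FiniteDimensional.proper_real s.V
    have hmem : ∀ m, (⟨s.P (f m), s.P_mem _⟩ : s.V) ∈ Metric.closedBall (0 : s.V) k := by
      intro m
      rw [mem_closedBall_zero_iff]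
      exact (s.norm_P_le (f m)).trans (norm_le_of_bdd hk (hf m).1)
    obtain ⟨p, _, θ, hθ, hlim⟩ := (isCompact_closedBall (0 : s.V) k).tendsto_subseq hmem
    have hlim2 : Filter.Tendsto (fun m => s.P (f (θ m))) Filter.atTop (nhds (p : HI)) :=
      (continuous_subtype_val.tendsto p).comp hlim
    have hlim3 : Filter.Tendsto (fun m => f (θ m)) Filter.atTop (nhds (p : HI)) := by
      have h1 : Filter.Tendsto (fun m => y (θ m)) Filter.atTop (nhds 0) :=
        hylim.comp hθ.tendsto_atTop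
      have h2 := h1.add hlim2
      rw [zero_add] at h2
      refine h2.congr (fun m => ?_)
      rw [← hfy]
      simp [hQ]
    have hpK : (p : HI) ∈ KK k c h :=
      (KK_closed k c h).mem_of_tendsto hlim3 (Filter.Eventually.of_forall (fun m => hf _))
    have hp0 : (p : HI) = 0 := s.avoid p p.2 ⟨k, hpK.1⟩
    have := hpK.2
    rw [hp0, inner_zero_right] at this
    linarith
  have hvn : 0 < ‖v‖ := norm_pos_iff.mpr hv0
  refine ⟨‖v‖⁻¹ • v, ?_, ?_, ‖v‖, hvn, ?_⟩
  · rw [norm_smul, norm_inv, norm_norm, inv_mul_cancel₀ hvn.ne']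
  · intro r hr
    rw [real_inner_smul_right, hvφ r hr, mul_zero]
  · intro f hf
    have h1 := hv (Q f) (subset_closure ⟨f, hf, rfl⟩)
    rw [zero_sub, inner_neg_left, inner_sub_right, real_inner_self_eq_norm_sq] at h1
    have h2 : inner ℝ v (Q f) = inner ℝ v f := by
      rw [hQ]
      simp only
      rw [inner_sub_right]
      have : inner ℝ v (s.P f) = 0 := by
        rw [St.P, inner_sum]
        refine sum_eq_zero (fun i hi => ?_)
        have h5 := hvφ i (mem_range.mp hi)
        rw [real_inner_comm] at h5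
        rw [real_inner_smul_right, h5, mul_zero]
      rw [this, sub_zero]
    rw [h2] at h1
    rw [real_inner_smul_left, inv_mul_eq_div, le_div_iff₀ hvn]
    nlinarith

end Pool.Agent.H7R2
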