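import Mathlib
import Pool.Agent.H7R2.OnsE

/-!
The construction of the complete orthonormal sequence.
-/

set_option autoImplicit false

namespace Pool.Agent.H7R2

open Finset MeasureTheory

/-- One stage of the construction. -/
theorem stage (s : St) (h : HI) (k : ℕ) :
    ∃ s' : St, s.n < s'.n ∧ (∀ i < s.n, s'.φ i = s.φ i) ∧
      (∃ x ∈ s'.V, ‖x - h‖ ≤ 1 / ((k : ℝ) + 1)) ∧
      ∀ f : HI, (∀ᵐ t ∂μI, |f t| ≤ (k : ℝ)) → 1 / ((k : ℝ) + 1) ≤ inner ℝ h f →
        μI {t | ∀ N ≤ s'.n - s.n,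
          |∑ i ∈ range N, inner ℝ (s'.φ (s.n + i)) f * s'.φ (s.n + i) t| < (k : ℝ) + 1}
          ≤ ENNReal.ofReal ((1 / 2) ^ k) := by
  obtain ⟨s1, h1, h2, h3⟩ : ∃ s1 : St, s.n ≤ s1.n ∧ (∀ i < s.n, s1.φ i = s.φ i) ∧
      ∀ f : HI, (∀ᵐ t ∂μI, |f t| ≤ (k : ℝ)) → 1 / ((k : ℝ) + 1) ≤ inner ℝ h f →
        μI {t | ∀ N ≤ s1.n - s.n,
          |∑ i ∈ range N, inner ℝ (s1.φ (s.n + i)) f * s1.φ (s.n + i) t| < (k : ℝ) + 1}
          ≤ ENNReal.ofReal ((1 / 2) ^ k) := by
    by_cases hne : (KK k (1 / ((k : ℝ) + 1)) h).Nonempty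
    · obtain ⟨g, hg, hgs, ε, hε, hgε⟩ := separate s h k (1 / ((k : ℝ) + 1)) (Nat.cast_nonneg k)
        (by positivity) hne
      obtain ⟨s1, h1, h2, h3⟩ := block_step s g hg hgs ((k : ℝ) + 1) ε ((1 / 2) ^ k) ((k : ℝ) + 1)
        (by positivity) hε (by positivity) (by positivity)
      refine ⟨s1, h1, h2, fun f hf hhf => h3 f ?_ ?_⟩
      · exact (norm_le_of_bdd (Nat.cast_nonneg k) hf).trans (by linarith)
      · exact (hgε f ⟨hf, hhf⟩).trans (le_abs_self _)
    · exact ⟨s, le_rfl, fun _ _ => rfl, fun f hf hhf => absurd ⟨f, hf, hhf⟩ hne⟩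
  obtain ⟨x, hx1, hx2⟩ := exists_near s1.V h (1 / ((k : ℝ) + 1)) (by positivity)
  obtain ⟨s', g1, g2, g3, _⟩ := s1.ext_one x hx2
  refine ⟨s', by omega, fun i hi => by rw [g2 i (by omega), h2 i hi], ⟨x, g3, hx1⟩,
    fun f hf hhf => ?_⟩
  refine le_trans (measure_mono ?_) (h3 f hf hhf)
  intro t ht N hN
  have h4 := ht N (by omega)
  have h5 : ∑ i ∈ range N, inner ℝ (s'.φ (s.n + i)) f * s'.φ (s.n + i) t
      = ∑ i ∈ range N, inner ℝ (s1.φ (s.n + i)) f * s1.φ (s.n + i) t := by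
    refine sum_congr rfl (fun i hi => ?_)
    rw [g2 (s.n + i) (by have := mem_range.mp hi; omega)]
  rw [h5] at h4
  exact h4

/-- A dense sequence. -/
noncomputable def hh (q : ℕ) : HI := TopologicalSpace.denseSeq HI q

lemma hh_dense : DenseRange hh := TopologicalSpace.denseRange_denseSeq HI

/-- The states. -/
noncomputable def SS : ℕ → St
  | 0 => { n := 0, φ := fun _ => 0, orth := fun i hi => absurd hi (by omega),
           avoid := by
            intro v hv _
            have h0 : (fun _ : ℕ => (0 : HI)) '' Set.Iio 0 = ∅ := by simp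
            rw [h0, Submodule.span_empty] at hv
            exact (Submodule.mem_bot ℝ).mp hv }
  | (k + 1) => Classical.choose (stage (SS k) (hh (Nat.unpair k).1) k)

lemma SS_spec (k : ℕ) :
    (SS k).n < (SS (k + 1)).n ∧ (∀ i < (SS k).n, (SS (k + 1)).φ i = (SS k).φ i) ∧
      (∃ x ∈ (SS (k + 1)).V, ‖x - hh (Nat.unpair k).1‖ ≤ 1 / ((k : ℝ) + 1)) ∧
      ∀ f : HI, (∀ᵐ t ∂μI, |f t| ≤ (k : ℝ)) → 1 / ((k : ℝ) + 1) ≤ inner ℝ (hh (Nat.unpair k).1) f →
        μI {t | ∀ N ≤ (SS (k + 1)).n - (SS k).n,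
          |∑ i ∈ range N, inner ℝ ((SS (k + 1)).φ ((SS k).n + i)) f
            * (SS (k + 1)).φ ((SS k).n + i) t| < (k : ℝ) + 1}
          ≤ ENNReal.ofReal ((1 / 2) ^ k) := by
  rw [SS]
  exact Classical.choose_spec (stage (SS k) (hh (Nat.unpair k).1) k)

lemma SS_mono : StrictMono (fun k => (SS k).n) := strictMono_nat_of_lt_succ (fun k => (SS_spec k).1)

lemma le_SS (k : ℕ) : k ≤ (SS k).n := SS_mono.le_apply

lemma SS_agree {k l : ℕ} (hkl : k ≤ l) : ∀ i < (SS k).n, (SS l).φ i = (SS k).φ i := by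
  induction l, hkl using Nat.le_induction with
  | base => intro i _; rfl
  | succ l hl ih =>
    intro i hi
    rw [(SS_spec l).2.1 i (lt_of_lt_of_le hi (SS_mono.monotone hl)), ih i hi]

/-- The orthonormal sequence. -/
noncomputable def Φ (i : ℕ) : HI := (SS (i + 1)).φ i

lemma Φ_eq {k i : ℕ} (hi : i < (SS k).n) : Φ i = (SS k).φ i := by
  have h1 : i < (SS (i + 1)).n := lt_of_lt_of_le (Nat.lt_succ_self i) (le_SS (i + 1))
  rcases le_total k (i + 1) with h | h
  · exact SS_agree h i hi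
  · exact (SS_agree h i h1).symm

lemma Φ_orth (i j : ℕ) : inner ℝ (Φ i) (Φ j) = if i = j then (1 : ℝ) else 0 := by
  have h1 : i < (SS (max i j + 1)).n := lt_of_lt_of_le (by omega) (le_SS (max i j + 1))
  have h2 : j < (SS (max i j + 1)).n := lt_of_lt_of_le (by omega) (le_SS (max i j + 1))
  rw [Φ_eq h1, Φ_eq h2]
  exact (SS (max i j + 1)).orth i h1 j h2

lemma Φ_complete (g : HI) (hg : ∀ i, inner ℝ (Φ i) g = 0) : g = 0 := by
  have h1 : ∀ k, ∀ x ∈ (SS k).V, inner ℝ x g = 0 := by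
    intro k x hx
    refine Submodule.span_induction ?_ ?_ ?_ ?_ hx
    · rintro _ ⟨i, hi, rfl⟩
      rw [← Φ_eq hi]
      exact hg i
    · exact inner_zero_left _
    · intro x y _ _ h1 h2
      rw [inner_add_left, h1, h2, add_zero]
    · intro a x _ h1
      rw [real_inner_smul_left, h1, mul_zero]
  have h2 : ∀ q, inner ℝ (hh q) g = 0 := by
    intro q
    have h3 : ∀ m : ℕ, |inner ℝ (hh q) g| ≤ (1 / ((m : ℝ) + 1)) * ‖g‖ := by
      intro m
      obtain ⟨x, hx1, hx2⟩ := (SS_spec (Nat.pair q m)).2.2.1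
      rw [Nat.unpair_pair] at hx2
      have h4 : inner ℝ (hh q) g = inner ℝ (hh q - x) g := by
        rw [inner_sub_left, h1 _ x hx1, sub_zero]
      rw [h4]
      refine (abs_real_inner_le_norm _ _).trans ?_
      rw [norm_sub_rev]
      refine mul_le_mul_of_nonneg_right (hx2.trans ?_) (norm_nonneg g)
      have h5 : (m : ℝ) ≤ (Nat.pair q m : ℕ) := by exact_mod_cast Nat.right_le_pair q m
      exact one_div_le_one_div_of_le (by positivity) (by simpa using h5)
    have h4 : Filter.Tendsto (fun m : ℕ => (1 / ((m : ℝ) + 1)) * ‖g‖) Filter.atTop (nhds 0) := by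
      have := (tendsto_one_div_add_atTop_nhds_zero_nat (𝕜 := ℝ)).mul_const ‖g‖
      rwa [zero_mul] at this
    exact abs_nonpos_iff.mp (ge_of_tendsto' h4 h3)
  have h3 : ∀ u : HI, inner ℝ u g = 0 := by
    intro u
    have hcl : IsClosed {u : HI | inner ℝ u g = 0} :=
      isClosed_eq (continuous_id.inner continuous_const) continuous_const
    have h4 : Set.range hh ⊆ {u : HI | inner ℝ u g = 0} := by
      rintro _ ⟨q, rfl⟩
      exact h2 q
    exact (hcl.closure_subset_iff.mpr h4) (hh_dense u)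
  exact inner_self_eq_zero.mp (h3 g)

lemma Φ_div_pos (f : HI) (C : ℝ) (hC : ∀ᵐ t ∂μI, |f t| ≤ C) (q : ℕ)
    (hq : 0 < inner ℝ (hh q) f) :
    ∀ᵐ t ∂μI, ¬ BddAbove (Set.range (fun n : ℕ => |∑ i ∈ range n, inner ℝ (Φ i) f * Φ i t|)) := by
  have hU : ∀ B : ℕ, μI {t | ∀ n : ℕ, |∑ i ∈ range n, inner ℝ (Φ i) f * Φ i t| ≤ B} = 0 := by
    intro B
    obtain ⟨m0, hm0⟩ := exists_nat_ge (max C (max (1 / inner ℝ (hh q) f) (2 * B)))
    have hle : ∀ m ≥ m0, μI {t | ∀ n : ℕ, |∑ i ∈ range n, inner ℝ (Φ i) f * Φ i t| ≤ B}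
        ≤ ENNReal.ofReal ((1 / 2) ^ m) := by
      intro m hm
      set k := Nat.pair q m with hk
      have hmk : m ≤ k := Nat.right_le_pair q m
      have hk0 : (m0 : ℝ) ≤ k := by exact_mod_cast hm.le.trans hmk
      have hk1 : C ≤ k := (le_max_left _ _).trans (hm0.trans hk0)
      have hk2 : 1 / inner ℝ (hh q) f ≤ k :=
        (le_max_left _ _).trans ((le_max_right _ _).trans (hm0.trans hk0))
      have hk3 : 2 * (B : ℝ) ≤ k :=
        (le_max_right _ _).trans ((le_max_right _ _).trans (hm0.trans hk0))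
      have h4 := (SS_spec k).2.2.2 f (hC.mono (fun t ht => ht.trans hk1))
        (by
          rw [hk, Nat.unpair_pair, ← hk]
          rw [div_le_iff₀ (by positivity)]
          rw [div_le_iff₀ hq] at hk2
          nlinarith)
      have h5 : ENNReal.ofReal ((1 / 2 : ℝ) ^ k) ≤ ENNReal.ofReal ((1 / 2) ^ m) :=
        ENNReal.ofReal_le_ofReal (pow_le_pow_of_le_one (by norm_num) (by norm_num) hmk)
      refine le_trans (measure_mono ?_) (h4.trans h5)
      intro t ht N hN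
      have h6 : ∑ i ∈ range N, inner ℝ ((SS (k + 1)).φ ((SS k).n + i)) f
            * (SS (k + 1)).φ ((SS k).n + i) t
          = ∑ i ∈ range ((SS k).n + N), inner ℝ (Φ i) f * Φ i t
            - ∑ i ∈ range (SS k).n, inner ℝ (Φ i) f * Φ i t := by
        rw [sum_range_add, add_sub_cancel_left]
        refine sum_congr rfl (fun i hi => ?_)
        rw [Φ_eq (k := k + 1) (i := (SS k).n + i) (by have := mem_range.mp hi; omega)]
      rw [h6]
      have h7 := ht ((SS k).n + N)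
      have h8 := ht (SS k).n
      refine lt_of_le_of_lt (abs_sub _ _) ?_
      linarith
    have hlim : Filter.Tendsto (fun m : ℕ => ENNReal.ofReal ((1 / 2 : ℝ) ^ m)) Filter.atTop
        (nhds 0) := by
      have := ENNReal.tendsto_ofReal
        (tendsto_pow_atTop_nhds_zero_of_lt_one (r := (1 / 2 : ℝ)) (by norm_num) (by norm_num))
      rwa [ENNReal.ofReal_zero] at this
    refine le_antisymm ?_ bot_le
    exact ge_of_tendsto hlim (Filter.eventually_atTop.mpr ⟨m0, hle⟩)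
  have hall : ∀ᵐ t ∂μI, ∀ B : ℕ,
      ¬ ∀ n : ℕ, |∑ i ∈ range n, inner ℝ (Φ i) f * Φ i t| ≤ B := by
    rw [ae_all_iff]
    intro B
    rw [ae_iff]
    simpa only [not_not] using hU B
  filter_upwards [hall] with t ht hb
  obtain ⟨b, hb⟩ := hb
  obtain ⟨B, hB⟩ := exists_nat_ge b
  exact ht B (fun n => (hb ⟨n, rfl⟩).trans hB)

/-- The expansion of every nonzero bounded function is unbounded almost everywhere. -/
theorem Φ_div (f : HI) (hf : f ≠ 0) (hb : f ∈ Bd) :
    ∀ᵐ t ∂μI, ¬ BddAbove (Set.range (fun n : ℕ => |∑ i ∈ range n, inner ℝ (Φ i) f * Φ i t|)) := by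
  obtain ⟨C, hC⟩ := hb
  obtain ⟨q, hq⟩ : ∃ q, inner ℝ (hh q) f ≠ 0 := by
    by_contra hc
    push Not at hc
    apply hf
    have hcl : IsClosed {u : HI | inner ℝ u f = 0} :=
      isClosed_eq (continuous_id.inner continuous_const) continuous_const
    have h4 : Set.range hh ⊆ {u : HI | inner ℝ u f = 0} := by
      rintro _ ⟨q, rfl⟩
      exact hc q
    exact inner_self_eq_zero.mp ((hcl.closure_subset_iff.mpr h4) (hh_dense f))
  rcases lt_or_gt_of_ne hq with h | h
  · have h1 := Φ_div_pos (-f) C (by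
      filter_upwards [hC, Lp.coeFn_neg f] with t h1 h2
      rw [h2, Pi.neg_apply, abs_neg]
      exact h1) q (by rw [inner_neg_right]; linarith)
    filter_upwards [h1] with t ht
    convert ht using 4 with n
    rw [← abs_neg, ← sum_neg_distrib]
    congr 1
    exact sum_congr rfl (fun i _ => by rw [inner_neg_right, neg_mul])
  · exact Φ_div_pos f C hC q h

end Pool.Agent.H7R2
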